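import Pool.Agent.V7H83.CZ.I

/-!
# Criteria
-/

set_option autoImplicit false

open Complex Set MeasureTheory Filter Topology
open scoped ComplexConjugate

namespace Pool.Agent.V7H83.CZ

open Pool.Agent.W169.HF H353.E H353.F Pool.Agent.V7H89.GL H370 H370.Loc Real
open Pool.Agent.V7H52.GM (LM Car)

variable {ι : Type*} {m : ℕ} {θ : ℝ} {L : ι → ℂ → ℂ} {Q : ι → ℝ → ℝ} {N : ι → ℝ} {C k : ℝ}

lemma MulN.mono {B σ0 R η η' N T : ℝ} {g : ℂ → ℂ} (h : MulN B σ0 R η N T g) (hη : η ≤ η') (hN : 1 ≤ N) :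
    MulN B σ0 R η' N T g :=
  ⟨h.an, h.up, fun s hs hT => (Real.rpow_le_rpow_of_exponent_le hN (by linarith)).trans (h.low s hs hT)⟩

lemma MulN.one {B σ0 R η N T : ℝ} (hB : 0 ≤ B) (hη : 0 ≤ η) (hN : 1 ≤ N) : MulN B σ0 R η N T (fun _ => 1) := by
  refine ⟨fun s _ => analyticAt_const, fun s _ => ?_, fun s _ _ => ?_⟩
  · rw [norm_one]
    exact Real.one_le_rpow (by linarith [norm_nonneg (s - T * I)]) hB
  · rw [norm_one]
    exact Real.rpow_le_one_of_one_le_of_nonpos hN (by linarith)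

/-- criterion: zeros -/
theorem Fam.crit_zero (F : Fam θ m L Q N C k) (hm : 1 ≤ m) (hθ0 : 0 ≤ θ) (hθ : θ < 1 / 2) {H h : ℝ} (hH : 0 ≤ H)
    (hh : 0 < h)
    (hz : ∀ η : ℝ, 0 < η → ∃ X : ℝ, ∀ i, X ≤ N i → ∀ T : ℝ, |T| ≤ H → ∀ S : Finset ℂ,
      (∀ s ∈ S, L i s = 0 ∧ 1 / 2 + η ≤ s.re ∧ |s.im - T| ≤ h) → ∑ s ∈ S, (mult (L i) s : ℝ) ≤ η * Real.log (N i))
    {β : ℝ} (hβ : 0 < β) : ∃ X : ℝ, ∀ i, X ≤ N i → ∀ T : ℝ, |T| ≤ H → ‖L i (1 / 2 + T * I)‖ ≤ N i ^ β := by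
  obtain ⟨c, X, hc, hX, H1⟩ := F.local hm hθ0 hθ hβ hh hH
  obtain ⟨X', H2⟩ := hz (c / 2) (by positivity)
  refine ⟨max X X', fun i hi T hT => ?_⟩
  by_contra hcon
  push Not at hcon
  have hX1 := (le_max_left _ _).trans hi
  obtain ⟨⟨S, hS, hSc⟩, -⟩ := H1 i hX1 T hT hcon.le
  have h3 := H2 i ((le_max_right _ _).trans hi) T hT S (fun s hs => by
    obtain ⟨h4, h5, h6⟩ := hS s hs
    exact ⟨h4, by linarith, h6⟩)
  have h4 : 0 < Real.log (N i) := Real.log_pos (by linarith)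
  nlinarith

/-- criterion: measure -/
theorem Fam.crit_meas (F : Fam θ m L Q N C k) (hm : 1 ≤ m) (hθ0 : 0 ≤ θ) (hθ : θ < 1 / 2) {H h : ℝ} (hH : 0 ≤ H)
    (hh : 0 < h)
    (hz : ∀ η : ℝ, 0 < η → ∃ X : ℝ, ∀ i, X ≤ N i → ∀ T : ℝ, |T| ≤ H →
      volume {t : ℝ | |t - T| ≤ h ∧ N i ^ η < ‖L i (1 / 2 + t * I)‖} ≤ ENNReal.ofReal η)
    {β : ℝ} (hβ : 0 < β) : ∃ X : ℝ, ∀ i, X ≤ N i → ∀ T : ℝ, |T| ≤ H → ‖L i (1 / 2 + T * I)‖ ≤ N i ^ β := by
  obtain ⟨c, X, hc, hX, H1⟩ := F.local hm hθ0 hθ hβ hh hH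
  obtain ⟨X', H2⟩ := hz (c / 2) (by positivity)
  refine ⟨max X X', fun i hi T hT => ?_⟩
  by_contra hcon
  push Not at hcon
  have hX1 := (le_max_left _ _).trans hi
  obtain ⟨-, h3⟩ := H1 i hX1 T hT hcon.le
  have h4 := H2 i ((le_max_right _ _).trans hi) T hT
  have h5 : ENNReal.ofReal c ≤ ENNReal.ofReal (c / 2) := by
    refine h3.trans (le_trans (measure_mono ?_) h4)
    rintro t ⟨h6, h7⟩
    refine ⟨h6, lt_of_lt_of_le ?_ h7⟩
    exact Real.rpow_lt_rpow_of_exponent_lt (by linarith) (by linarith)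
  rw [ENNReal.ofReal_le_ofReal_iff (by positivity)] at h5
  linarith

/-- criterion: geometric means and multipliers -/
theorem Fam.crit_mult (F : Fam θ m L Q N C k) (hm : 1 ≤ m) (hθ0 : 0 ≤ θ) (hθ : θ < 1 / 2) {ρ : Measure ℂ}
    [IsProbabilityMeasure ρ] {R : ℝ} (hR : 0 ≤ R) (hρ : Car ρ R) (hδ : ∀ δ : ℝ, 0 < δ → 0 < ρ {z : ℂ | z.re < δ})
    {B σ0 H : ℝ} (hB : 0 ≤ B) (hH : 0 ≤ H)
    (hz : ∀ η H' : ℝ, 0 < η → 0 < H' → ∃ X : ℝ, ∀ i, X ≤ N i → ∀ T : ℝ, |T| ≤ H →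
      ∃ g : ℂ → ℂ, MulN B σ0 R η (N i) T g ∧
        volume {t : ℝ | |t - T| ≤ H' ∧ N i ^ η < GMn ρ (fun s => L i s * g s) t} ≤ ENNReal.ofReal η)
    {β : ℝ} (hβ : 0 < β) : ∃ X : ℝ, ∀ i, X ≤ N i → ∀ T : ℝ, |T| ≤ H → ‖L i (1 / 2 + T * I)‖ ≤ N i ^ β := by
  obtain ⟨c, H', X, hc, hH', hX, H1⟩ := F.law hm hθ0 hθ hR hρ hδ (σ0 := σ0) hβ hB hH
  obtain ⟨X', H2⟩ := hz (c / 2) H' (by positivity) hH'
  refine ⟨max X X', fun i hi T hT => ?_⟩
  by_contra hcon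
  push Not at hcon
  have hX1 := (le_max_left _ _).trans hi
  obtain ⟨g, hg, h4⟩ := H2 i ((le_max_right _ _).trans hi) T hT
  have h3 := H1 i hX1 T hT hcon.le g (hg.mono (by linarith) (by linarith))
  have h5 : ENNReal.ofReal c ≤ ENNReal.ofReal (c / 2) := by
    refine h3.trans (le_trans (measure_mono ?_) h4)
    rintro t ⟨h6, h7⟩
    refine ⟨h6, lt_of_lt_of_le ?_ h7⟩
    exact Real.rpow_lt_rpow_of_exponent_lt (by linarith) (by linarith)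
  rw [ENNReal.ofReal_le_ofReal_iff (by positivity)] at h5
  linarith

/-- the bound on every bounded range of heights -/
def Lin (L : ι → ℂ → ℂ) (N : ι → ℝ) : Prop := ∀ β H : ℝ, 0 < β → 0 < H → ∃ X : ℝ, ∀ i, X ≤ N i →
  ∀ T : ℝ, |T| ≤ H → ‖L i (1 / 2 + T * I)‖ ≤ N i ^ β

/-- few zeros to the right of the critical line -/
def Few (L : ι → ℂ → ℂ) (N : ι → ℝ) : Prop := ∀ η H : ℝ, 0 < η → 0 < H → ∃ X : ℝ, ∀ i, X ≤ N i →
  ∀ S : Finset ℂ, (∀ s ∈ S, L i s = 0 ∧ 1 / 2 + η ≤ s.re ∧ |s.im| ≤ H) →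
    ∑ s ∈ S, (mult (L i) s : ℝ) ≤ η * Real.log (N i)

/-- small geometric means, with multipliers, off small sets -/
def Mol (L : ι → ℂ → ℂ) (N : ι → ℝ) (ρ : Measure ℂ) (B σ0 R : ℝ) : Prop := ∀ η H : ℝ, 0 < η → 0 < H →
  ∃ X : ℝ, ∀ i, X ≤ N i → ∃ g : ℂ → ℂ, MulN B σ0 R η (N i) 0 g ∧
    volume {t : ℝ | |t| ≤ H ∧ N i ^ η < GMn ρ (fun s => L i s * g s) t} ≤ ENNReal.ofReal η

lemma Fam.few_of_mol (F : Fam θ m L Q N C k) (hm : 1 ≤ m) (hθ0 : 0 ≤ θ) (hθ : θ < 1 / 2) {ρ : Measure ℂ}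
    [IsProbabilityMeasure ρ] {R : ℝ} (hR : 0 ≤ R) (hρ : Car ρ R) (hδ : ∀ δ : ℝ, 0 < δ → 0 < ρ {z : ℂ | z.re < δ})
    {B σ0 : ℝ} (hB : 0 ≤ B) (h : Mol L N ρ B σ0 R) : Few L N := by
  intro η H hη hH
  obtain ⟨c, H', X, hc, hH', hX, H1⟩ := F.zer hm hθ0 hθ hR hρ hδ (σ0 := σ0) hη hB hH.le
  obtain ⟨X', H2⟩ := h (c / 2) H' (by positivity) hH'
  refine ⟨max X X', fun i hi S hS => ?_⟩
  by_contra hcon
  push Not at hcon
  have hX1 := (le_max_left _ _).trans hi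
  obtain ⟨g, hg, h4⟩ := H2 i ((le_max_right _ _).trans hi)
  have h3 := H1 i hX1 S (fun s hs => ⟨(hS s hs).2.1, (hS s hs).2.2, (hS s hs).1⟩) hcon.le g
    (hg.mono (by linarith) (by linarith))
  have h5 : ENNReal.ofReal c ≤ ENNReal.ofReal (c / 2) := by
    refine h3.trans (le_trans (measure_mono ?_) h4)
    rintro t ⟨h6, h7⟩
    refine ⟨h6, lt_of_lt_of_le ?_ h7⟩
    exact Real.rpow_lt_rpow_of_exponent_lt (by linarith) (by linarith)
  rw [ENNReal.ofReal_le_ofReal_iff (by positivity)] at h5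
  linarith

lemma Fam.lin_of_few (F : Fam θ m L Q N C k) (hm : 1 ≤ m) (hθ0 : 0 ≤ θ) (hθ : θ < 1 / 2) (h : Few L N) : Lin L N := by
  intro β H hβ hH
  refine F.crit_zero hm hθ0 hθ hH.le one_pos (fun η hη => ?_) hβ
  obtain ⟨X, hX⟩ := h η (H + 1) hη (by linarith)
  refine ⟨X, fun i hi T hT S hS => hX i hi S fun s hs => ?_⟩
  obtain ⟨h1, h2, h3⟩ := hS s hs
  refine ⟨h1, h2, ?_⟩
  have : |s.im| ≤ |s.im - T| + |T| := by
    have := abs_add_le (s.im - T) T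
    rwa [sub_add_cancel] at this
  linarith

/-- the mean over a measure on the imaginary axis is at most the maximum -/
lemma GM_le {ρ : Measure ℂ} [IsProbabilityMeasure ρ] {R : ℝ} (hρ : ∀ᵐ z ∂ρ, z.re = 0 ∧ |z.im| ≤ R) {f : ℂ → ℂ}
    {t x : ℝ} (hx : 0 < x) (h : ∀ v : ℝ, |v| ≤ R → ‖f (1 / 2 + (t + v : ℝ) * I)‖ ≤ x)
    (hi : ∀ n : ℕ, Integrable (fun z => Real.log (max ‖f (1 / 2 + t * I + z)‖ (Real.exp (-(n : ℝ))))) ρ) :
    GMn ρ f t ≤ x := by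
  obtain ⟨n, hn⟩ := exists_nat_gt (-Real.log x)
  have h1 : GMn ρ f t ≤ Real.exp (LM ρ f n t) := ciInf_le (GMn_bdd ρ f t) n
  refine h1.trans ?_
  have h2 : LM ρ f n t ≤ Real.log x := by
    have h3 : LM ρ f n t ≤ ∫ _z, Real.log x ∂ρ := by
      refine integral_mono_ae (hi n) (integrable_const _) ?_
      filter_upwards [hρ] with z hz
      have e : (1 / 2 + (t : ℂ) * I + z) = 1 / 2 + ((t + z.im : ℝ) : ℂ) * I := by
        apply Complex.ext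
        · simp [hz.1]
        · simp
      show Real.log (max ‖f (1 / 2 + t * I + z)‖ (Real.exp (-(n : ℝ)))) ≤ Real.log x
      rw [e]
      apply Real.log_le_log (lt_max_of_lt_right (Real.exp_pos _))
      apply max_le (h z.im hz.2)
      rw [← Real.exp_log hx]
      exact Real.exp_le_exp.2 (by linarith)
    simpa using h3
  exact (Real.exp_le_exp.2 h2).trans_eq (Real.exp_log hx)

lemma Fam.mol_of_lin (F : Fam θ m L Q N C k) (hm : 1 ≤ m) (hθ0 : 0 ≤ θ) (hθ : θ < 1 / 2) {ρ : Measure ℂ}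
    [IsProbabilityMeasure ρ] {R : ℝ} (hR : 0 ≤ R) (hρ : ∀ᵐ z ∂ρ, z.re = 0 ∧ |z.im| ≤ R)
    {B : ℝ} (σ0 : ℝ) (hB : 0 ≤ B) (h : Lin L N) : Mol L N ρ B σ0 R := by
  obtain ⟨A, -, HF⟩ := factsMem hm hθ0 hθ
  intro η H hη hH
  obtain ⟨X, hX⟩ := h η (H + R) hη (by linarith)
  refine ⟨max X 1, fun i hi => ⟨fun _ => 1, MulN.one hB hη.le ((le_max_right _ _).trans hi), ?_⟩⟩
  obtain ⟨hdif, -⟩ := HF _ _ (F.mem i)
  have hN1 := F.one i
  have hemp : {t : ℝ | |t| ≤ H ∧ N i ^ η < GMn ρ (fun s => L i s * 1) t} = ∅ := by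
    rw [Set.eq_empty_iff_forall_notMem]
    rintro t ⟨h1, h2⟩
    refine absurd h2 (not_lt.2 ?_)
    have hcar : Car ρ R := by
      filter_upwards [hρ] with z hz
      refine ⟨hz.1.ge, ?_⟩
      have := Complex.norm_le_abs_re_add_abs_im z
      rw [hz.1, abs_zero, zero_add] at this
      exact this.trans hz.2
    have hcont : Continuous (fun s => L i s * 1) := hdif.continuous.mul continuous_const
    refine GM_le hρ (Real.rpow_pos_of_pos (by linarith) _) (fun v hv => ?_) (fun n => ?_)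
    · rw [mul_one]
      exact hX i ((le_max_left _ _).trans hi) (t + v) ((abs_add_le t v).trans (by linarith))
    · have hg : ∀ n : ℕ, Continuous (fun z => Real.log (max ‖L i (1 / 2 + t * I + z) * 1‖ (Real.exp (-(n : ℝ))))) := by
        intro n
        refine Continuous.log ?_ fun z => (lt_max_of_lt_right (Real.exp_pos _)).ne'
        exact ((hcont.comp (by fun_prop)).norm).max continuous_const
      have hK : IsCompact {z : ℂ | z.re = 0 ∧ |z.im| ≤ R} := by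
        have h3 : {z : ℂ | z.re = 0 ∧ |z.im| ≤ R} = Metric.closedBall (0:ℂ) R ∩ {z : ℂ | z.re = 0} := by
          ext z
          simp only [mem_ofPred_eq, mem_inter_iff, mem_closedBall_zero_iff]
          constructor
          · rintro ⟨h4, h5⟩
            refine ⟨?_, h4⟩
            have := Complex.norm_le_abs_re_add_abs_im z
            rw [h4, abs_zero, zero_add] at this
            exact this.trans h5
          · rintro ⟨h4, h5⟩
            exact ⟨h5, (Complex.abs_im_le_norm z).trans h4⟩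
        rw [h3]
        exact (isCompact_closedBall (0:ℂ) R).inter_right (isClosed_eq Complex.continuous_re continuous_const)
      have h4 : ρ.restrict {z : ℂ | z.re = 0 ∧ |z.im| ≤ R} = ρ := Measure.restrict_eq_self_of_ae_mem hρ
      have h5 := (hg n).continuousOn.integrableOn_compact (μ := ρ) hK
      rw [IntegrableOn, h4] at h5
      exact h5
  rw [hemp, measure_empty]
  exact zero_le

end Pool.Agent.V7H83.CZ
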