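import Pool.Agent.V7H83.CZ.H

/-!
# Families with a size
-/

set_option autoImplicit false

open Complex Set MeasureTheory Filter Topology
open scoped ComplexConjugate

namespace Pool.Agent.V7H83.CZ

open Pool.Agent.W169.HF H353.E H353.F Pool.Agent.V7H89.GL H370 H370.Loc Real
open Pool.Agent.V7H52.GM (LM Car)

lemma cmp {N q C k : ℝ} (hC : 1 ≤ C) (hk : 0 ≤ k) (h1 : N ≤ C * q) (h2 : q ≤ C * N ^ k) (hN : C ^ 2 ≤ N) :
    1 ≤ N ∧ C ≤ q ∧ Real.log N ≤ 2 * Real.log q ∧ Real.log q ≤ (k + 1) * Real.log N := by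
  have hC0 : 0 < C := by linarith
  have hCN : C ≤ N := by nlinarith
  have hN1 : 1 ≤ N := by linarith
  have hq : C ≤ q := by
    by_contra h
    push Not at h
    nlinarith
  have hq0 : 0 < q := by linarith
  refine ⟨hN1, hq, ?_, ?_⟩
  · have h3 : N ≤ q ^ 2 := by nlinarith
    have h4 := Real.log_le_log (by linarith) h3
    rwa [Real.log_pow, Nat.cast_ofNat] at h4
  · have h3 : q ≤ N * N ^ k := h2.trans (mul_le_mul_of_nonneg_right hCN (Real.rpow_nonneg (by linarith) _))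
    have h4 := Real.log_le_log hq0 h3
    rw [Real.log_mul (by linarith) (Real.rpow_pos_of_pos (by linarith) _).ne', Real.log_rpow (by linarith)] at h4
    linarith

variable {ι : Type*}

/-- a family with a size -/
structure Fam (θ : ℝ) (m : ℕ) (L : ι → ℂ → ℂ) (Q : ι → ℝ → ℝ) (N : ι → ℝ) (C k : ℝ) : Prop where
  mem : ∀ i, Mem θ m (L i) (Q i)
  hC : 1 ≤ C
  hk : 0 ≤ k
  lo : ∀ i, N i ≤ C * Q i 0
  up : ∀ i, Q i 0 ≤ C * N i ^ k
  one : ∀ i, 1 ≤ N i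

variable {m : ℕ} {θ : ℝ} {L : ι → ℂ → ℂ} {Q : ι → ℝ → ℝ} {N : ι → ℝ} {C k : ℝ}

/-- the comparison of the size and the conductor -/
lemma Fam.cmp (F : Fam θ m L Q N C k) (hm : 1 ≤ m) (hθ0 : 0 ≤ θ) (hθ : θ < 1 / 2) {H : ℝ} (hH : 0 ≤ H) (X0 : ℝ) :
    ∃ X : ℝ, 1 < X ∧ ∀ i, X ≤ N i → ∀ T : ℝ, |T| ≤ H →
      X0 ≤ Q i T ∧ 1 ≤ Q i T ∧ Real.log (N i) ≤ 2 * Real.log (Q i T) ∧
        Real.log (Q i T) ≤ (k + 1) * Real.log (N i) := by
  obtain ⟨A, -, HF⟩ := factsMem hm hθ0 hθ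
  obtain ⟨C', hC'⟩ : ∃ C' : ℝ, C' = max (C * Real.exp (m * H)) X0 := ⟨_, rfl⟩
  have hE : 1 ≤ Real.exp (m * H) := Real.one_le_exp (by positivity)
  have hC1 : C * Real.exp (m * H) ≤ C' := by rw [hC']; exact le_max_left _ _
  have hC2 : 1 ≤ C' := by
    have := F.hC
    nlinarith
  refine ⟨max (C' ^ 2) 2, lt_max_of_lt_right (by norm_num), ?_⟩
  intro i hi T hT
  obtain ⟨-, h1, -, -, hmv⟩ := HF _ _ (F.mem i)
  have hq0 := h1 0
  have hqT := h1 T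
  have hmT : m * |T| ≤ m * H := by gcongr
  have h2 : Real.log (Q i T) ≤ Real.log (Q i 0) + m * H := by
    have := hmv 0 T
    rw [zero_add] at this
    linarith
  have h3 : Real.log (Q i 0) ≤ Real.log (Q i T) + m * H := by
    have := hmv T (-T)
    rw [add_neg_cancel, abs_neg] at this
    linarith
  have h4 : Q i T ≤ Q i 0 * Real.exp (m * H) := by
    rw [← Real.exp_log (show 0 < Q i T by linarith), ← Real.exp_log (show 0 < Q i 0 by linarith), ← Real.exp_add]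
    exact Real.exp_le_exp.2 h2
  have h5 : Q i 0 ≤ Q i T * Real.exp (m * H) := by
    rw [← Real.exp_log (show 0 < Q i T by linarith), ← Real.exp_log (show 0 < Q i 0 by linarith), ← Real.exp_add]
    exact Real.exp_le_exp.2 h3
  have hC0 : 0 ≤ C := by linarith [F.hC]
  have hNk : 0 ≤ N i ^ k := Real.rpow_nonneg (by linarith [F.one i]) _
  have h6 : N i ≤ C' * Q i T := by
    calc N i ≤ C * Q i 0 := F.lo i
      _ ≤ C * (Q i T * Real.exp (m * H)) := mul_le_mul_of_nonneg_left h5 hC0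
      _ = C * Real.exp (m * H) * Q i T := by ring
      _ ≤ _ := mul_le_mul_of_nonneg_right hC1 (by linarith)
  have h7 : Q i T ≤ C' * N i ^ k := by
    calc Q i T ≤ Q i 0 * Real.exp (m * H) := h4
      _ ≤ C * N i ^ k * Real.exp (m * H) := mul_le_mul_of_nonneg_right (F.up i) (Real.exp_pos _).le
      _ = C * Real.exp (m * H) * N i ^ k := by ring
      _ ≤ _ := mul_le_mul_of_nonneg_right hC1 hNk
  obtain ⟨-, h8, h9, h10⟩ := CZ.cmp hC2 F.hk h6 h7 ((le_max_left _ _).trans hi)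
  refine ⟨le_trans ?_ h8, hqT, h9, h10⟩
  rw [hC']
  exact le_max_right _ _

lemma pow_le {x y a b : ℝ} (hx : 0 < x) (hy : 0 < y) (h : a * Real.log x ≤ b * Real.log y) : x ^ a ≤ y ^ b := by
  rw [Real.rpow_def_of_pos hx, Real.rpow_def_of_pos hy]
  apply Real.exp_le_exp.2
  linarith

/-- **the local law for zeros and values** -/
theorem Fam.local (F : Fam θ m L Q N C k) (hm : 1 ≤ m) (hθ0 : 0 ≤ θ) (hθ : θ < 1 / 2) {β h H : ℝ} (hβ : 0 < β)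
    (hh : 0 < h) (hH : 0 ≤ H) : ∃ c X : ℝ, 0 < c ∧ 1 < X ∧ ∀ i, X ≤ N i → ∀ T : ℝ, |T| ≤ H →
      N i ^ β ≤ ‖L i (1 / 2 + T * I)‖ →
      (∃ S : Finset ℂ, (∀ s ∈ S, L i s = 0 ∧ 1 / 2 + c ≤ s.re ∧ |s.im - T| ≤ h) ∧
        c * Real.log (N i) ≤ ∑ s ∈ S, (mult (L i) s : ℝ)) ∧
      ENNReal.ofReal c ≤ volume {t : ℝ | |t - T| ≤ h ∧ N i ^ c ≤ ‖L i (1 / 2 + t * I)‖} := by
  have hk := F.hk
  obtain ⟨κ, hκ⟩ : ∃ κ : ℝ, κ = β / (k + 1) := ⟨_, rfl⟩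
  have hκ0 : 0 < κ := by rw [hκ]; positivity
  have hκe : κ * (k + 1) = β := by rw [hκ]; field_simp
  obtain ⟨c1, Q1, hc1, hQ1, H1⟩ := zerosMem hm hθ0 hθ hκ0 hh
  obtain ⟨c2, Q2, hc2, hQ2, H2⟩ := largeMem hm hθ0 hθ hκ0 hh
  obtain ⟨X, hX, HX⟩ := F.cmp hm hθ0 hθ hH (max Q1 Q2)
  refine ⟨min c1 c2 / 2, X, by positivity, hX, ?_⟩
  intro i hi T hT hbig
  obtain ⟨h1, h2, h3, h4⟩ := HX i hi T hT
  have hN1 : 1 ≤ N i := by linarith
  have hlN : 0 ≤ Real.log (N i) := Real.log_nonneg hN1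
  have h5 : Q i T ^ κ ≤ ‖L i (1 / 2 + T * I)‖ := by
    refine le_trans (pow_le (by linarith) (by linarith) ?_) hbig
    calc κ * Real.log (Q i T) ≤ κ * ((k + 1) * Real.log (N i)) := mul_le_mul_of_nonneg_left h4 hκ0.le
      _ = β * Real.log (N i) := by rw [← mul_assoc, hκe]
  have hm1 : min c1 c2 ≤ c1 := min_le_left _ _
  have hm2 : min c1 c2 ≤ c2 := min_le_right _ _
  have hm0 : 0 < min c1 c2 := lt_min hc1 hc2
  constructor
  · obtain ⟨S, hS, hSc⟩ := H1 _ _ (F.mem i) T ((le_max_left _ _).trans h1) h5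
    refine ⟨S, fun s hs => ?_, ?_⟩
    · obtain ⟨h6, h7, h8⟩ := hS s hs
      exact ⟨h6, by linarith, h8⟩
    · refine le_trans ?_ hSc
      nlinarith
  · have h6 := H2 _ _ (F.mem i) T ((le_max_right _ _).trans h1) h5
    refine le_trans (le_trans (ENNReal.ofReal_le_ofReal (by linarith)) h6) (measure_mono ?_)
    rintro t ⟨h7, h8⟩
    refine ⟨h7, le_trans (pow_le (by linarith) (by linarith) ?_) h8⟩
    nlinarith

/-- multipliers at the height `T` in terms of the size -/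
structure MulN (B σ0 R η N T : ℝ) (g : ℂ → ℂ) : Prop where
  an : ∀ s : ℂ, 1 / 2 ≤ s.re → AnalyticAt ℂ g s
  up : ∀ s : ℂ, 1 / 2 ≤ s.re → ‖g s‖ ≤ (N + ‖s - T * I‖) ^ B
  low : ∀ s : ℂ, σ0 ≤ s.re → |s.im - T| ≤ R → N ^ (-η) ≤ ‖g s‖

lemma MulN.toQ {B σ0 R η η' N T q : ℝ} {g : ℂ → ℂ} (h : MulN B σ0 R η N T g) (hN : 1 ≤ N) (hB : 0 ≤ B) (hη : 0 ≤ η)
    (hq : 1 ≤ q) (hlog : Real.log N ≤ 2 * Real.log q) (h2 : 2 * η ≤ η') : MulQ (2 * B) σ0 R η' q T g := by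
  have hlq : 0 ≤ Real.log q := Real.log_nonneg hq
  refine ⟨h.an, fun s hs => (h.up s hs).trans ?_, fun s hs hT => le_trans ?_ (h.low s hs hT)⟩
  · have hn := norm_nonneg (s - T * I)
    apply pow_le (by linarith) (by linarith)
    have h3 : N ≤ q ^ 2 := by
      have := Real.exp_le_exp.2 hlog
      rw [Real.exp_log (by linarith)] at this
      refine this.trans_eq ?_
      rw [two_mul, Real.exp_add, Real.exp_log (by linarith), sq]
    have h4 : N + ‖s - T * I‖ ≤ (q + ‖s - T * I‖) ^ 2 := by nlinarith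
    have h5 := Real.log_le_log (by linarith) h4
    rw [Real.log_pow, Nat.cast_ofNat] at h5
    nlinarith
  · apply pow_le (by linarith) (by linarith)
    nlinarith

/-- **the local law for geometric means with multipliers** -/
theorem Fam.law (F : Fam θ m L Q N C k) (hm : 1 ≤ m) (hθ0 : 0 ≤ θ) (hθ : θ < 1 / 2) {ρ : Measure ℂ}
    [IsProbabilityMeasure ρ] {R : ℝ} (hR : 0 ≤ R) (hρ : Car ρ R) (hδ : ∀ δ : ℝ, 0 < δ → 0 < ρ {z : ℂ | z.re < δ})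
    {β B σ0 H : ℝ} (hβ : 0 < β) (hB : 0 ≤ B) (hH : 0 ≤ H) :
    ∃ η H' X : ℝ, 0 < η ∧ 0 < H' ∧ 1 < X ∧ ∀ i, X ≤ N i → ∀ T : ℝ, |T| ≤ H → N i ^ β ≤ ‖L i (1 / 2 + T * I)‖ →
      ∀ g : ℂ → ℂ, MulN B σ0 R η (N i) T g →
      ENNReal.ofReal η ≤ volume {t : ℝ | |t - T| ≤ H' ∧ N i ^ η ≤ GMn ρ (fun s => L i s * g s) t} := by
  have hk := F.hk
  obtain ⟨κ, hκ⟩ : ∃ κ : ℝ, κ = β / (k + 1) := ⟨_, rfl⟩
  have hκ0 : 0 < κ := by rw [hκ]; positivity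
  have hκe : κ * (k + 1) = β := by rw [hκ]; field_simp
  obtain ⟨η, H', Q1, hη, hH', hQ1, H1⟩ := lawMem hm hθ0 hθ hR hρ hδ (σ0 := σ0) hκ0 (show 0 ≤ 2 * B by positivity)
  obtain ⟨X, hX, HX⟩ := F.cmp hm hθ0 hθ hH Q1
  refine ⟨η / 2, H', X, by positivity, hH', hX, ?_⟩
  intro i hi T hT hbig g hg
  obtain ⟨h1, h2, h3, h4⟩ := HX i hi T hT
  have hN1 : 1 ≤ N i := by linarith
  have h5 : Q i T ^ κ ≤ ‖L i (1 / 2 + T * I)‖ := by
    refine le_trans (pow_le (by linarith) (by linarith) ?_) hbig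
    calc κ * Real.log (Q i T) ≤ κ * ((k + 1) * Real.log (N i)) := mul_le_mul_of_nonneg_left h4 hκ0.le
      _ = β * Real.log (N i) := by rw [← mul_assoc, hκe]
  have h6 := H1 _ _ (F.mem i) T h1 h5 g (hg.toQ hN1 hB (by positivity) h2 h3 (by linarith))
  refine le_trans (le_trans (ENNReal.ofReal_le_ofReal (by linarith)) h6) (measure_mono ?_)
  rintro t ⟨h7, h8⟩
  refine ⟨h7, le_trans (pow_le (by linarith) (by linarith) ?_) h8⟩
  nlinarith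

/-- **zeros force large geometric means** -/
theorem Fam.zer (F : Fam θ m L Q N C k) (hm : 1 ≤ m) (hθ0 : 0 ≤ θ) (hθ : θ < 1 / 2) {ρ : Measure ℂ}
    [IsProbabilityMeasure ρ] {R : ℝ} (hR : 0 ≤ R) (hρ : Car ρ R) (hδ : ∀ δ : ℝ, 0 < δ → 0 < ρ {z : ℂ | z.re < δ})
    {β B σ0 H : ℝ} (hβ : 0 < β) (hB : 0 ≤ B) (hH : 0 ≤ H) :
    ∃ η H' X : ℝ, 0 < η ∧ 0 < H' ∧ 1 < X ∧ ∀ i, X ≤ N i → ∀ S : Finset ℂ,
      (∀ s ∈ S, 1 / 2 + β ≤ s.re ∧ |s.im| ≤ H ∧ L i s = 0) → β * Real.log (N i) ≤ ∑ s ∈ S, (mult (L i) s : ℝ) →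
      ∀ g : ℂ → ℂ, MulN B σ0 R η (N i) 0 g →
      ENNReal.ofReal η ≤ volume {t : ℝ | |t| ≤ H' ∧ N i ^ η ≤ GMn ρ (fun s => L i s * g s) t} := by
  have hk := F.hk
  obtain ⟨κ, hκ⟩ : ∃ κ : ℝ, κ = β / (k + 1) := ⟨_, rfl⟩
  have hκ0 : 0 < κ := by rw [hκ]; positivity
  have hκe : κ * (k + 1) = β := by rw [hκ]; field_simp
  have hκβ : κ ≤ β := by nlinarith
  obtain ⟨A, -, HF⟩ := factsMem hm hθ0 hθ
  obtain ⟨η, H', Q1, hη, hH', hQ1, H1⟩ := multMem hm hθ0 hθ hR hρ hδ (σ0 := σ0) (X := 2 + H) hκ0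
    (show 0 ≤ 2 * B by positivity) (by positivity)
  obtain ⟨X, hX, HX⟩ := F.cmp hm hθ0 hθ le_rfl Q1
  refine ⟨η / 2, H', X, by positivity, hH', hX, ?_⟩
  intro i hi S hS hSc g hg
  obtain ⟨h1, h2, h3, h4⟩ := HX i hi 0 (by simp)
  obtain ⟨-, -, -, hne, -⟩ := HF _ _ (F.mem i)
  have hN1 : 1 ≤ N i := by linarith
  have h6 := H1 _ _ (F.mem i) 0 h1 S (fun s hs => by
    obtain ⟨h7, h8, h9⟩ := hS s hs
    refine ⟨by linarith, ?_⟩
    have h10 : s.re < 2 := by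
      by_contra h
      push Not at h
      exact hne s h h9
    rw [Complex.ofReal_zero, zero_mul, sub_zero]
    have h11 := Complex.norm_le_abs_re_add_abs_im s
    rw [abs_of_nonneg (by linarith)] at h11
    linarith) (by
    refine le_trans ?_ hSc
    calc κ * Real.log (Q i 0) ≤ κ * ((k + 1) * Real.log (N i)) := mul_le_mul_of_nonneg_left h4 hκ0.le
      _ = β * Real.log (N i) := by rw [← mul_assoc, hκe]) g (hg.toQ hN1 hB (by positivity) h2 h3 (by linarith))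
  refine le_trans (le_trans (ENNReal.ofReal_le_ofReal (by linarith)) h6) (measure_mono ?_)
  rintro t ⟨h7, h8⟩
  refine ⟨by rwa [sub_zero] at h7, le_trans (pow_le (by linarith) (by linarith) ?_) h8⟩
  nlinarith

end Pool.Agent.V7H83.CZ
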