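import Pool.Agent.V7H83.CZ.G

/-!
# Families
-/

set_option autoImplicit false

open Complex Set MeasureTheory Filter Topology
open scoped ComplexConjugate

namespace Pool.Agent.V7H83.CZ

open Pool.Agent.W169.HF H353.E H353.F Pool.Agent.V7H89.GL H370 H370.Loc Real
open Pool.Agent.V7H52.GM (LM Car)

/-- the L-functions of the class, with the conductor -/
def Mem (θ : ℝ) (m : ℕ) (L : ℂ → ℂ) (Q : ℝ → ℝ) : Prop :=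
  ∃ (N : ℝ) (μ : Fin m → ℂ) (α : Fin m → ℕ → ℂ) (ε : ℂ) (Λ : ℂ → ℂ),
    Dat θ N μ α ε Λ ∧ L = LL N μ Λ ∧ Q = cq N μ

variable {m : ℕ} {θ : ℝ}

theorem zerosMem (hm : 1 ≤ m) (hθ0 : 0 ≤ θ) (hθ : θ < 1 / 2) {κ h : ℝ} (hκ : 0 < κ) (hh : 0 < h) :
    ∃ c Q0 : ℝ, 0 < c ∧ 1 < Q0 ∧ ∀ (L : ℂ → ℂ) (Q : ℝ → ℝ), Mem θ m L Q → ∀ T : ℝ, Q0 ≤ Q T →
      Q T ^ κ ≤ ‖L (1 / 2 + T * I)‖ →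
      ∃ S : Finset ℂ, (∀ s ∈ S, L s = 0 ∧ 1 / 2 + c ≤ s.re ∧ |s.im - T| ≤ h) ∧
        c * Real.log (Q T) ≤ ∑ s ∈ S, (mult L s : ℝ) := by
  obtain ⟨c, Q0, hc, hQ0, H⟩ := zerosLL hm hθ0 hθ hκ hh
  refine ⟨c, Q0, hc, hQ0, ?_⟩
  rintro L Q ⟨N, μ, α, ε, Λ, hD, rfl, rfl⟩
  exact H N μ α ε Λ hD

theorem largeMem (hm : 1 ≤ m) (hθ0 : 0 ≤ θ) (hθ : θ < 1 / 2) {κ h : ℝ} (hκ : 0 < κ) (hh : 0 < h) :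
    ∃ c Q0 : ℝ, 0 < c ∧ 1 < Q0 ∧ ∀ (L : ℂ → ℂ) (Q : ℝ → ℝ), Mem θ m L Q → ∀ T : ℝ, Q0 ≤ Q T →
      Q T ^ κ ≤ ‖L (1 / 2 + T * I)‖ →
      ENNReal.ofReal c ≤ volume {t : ℝ | |t - T| ≤ h ∧ Q T ^ c ≤ ‖L (1 / 2 + t * I)‖} := by
  obtain ⟨c, Q0, hc, hQ0, H⟩ := largeLL hm hθ0 hθ hκ hh
  refine ⟨c, Q0, hc, hQ0, ?_⟩
  rintro L Q ⟨N, μ, α, ε, Λ, hD, rfl, rfl⟩
  exact H N μ α ε Λ hD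

theorem multMem (hm : 1 ≤ m) (hθ0 : 0 ≤ θ) (hθ : θ < 1 / 2) {ρ : Measure ℂ} [IsProbabilityMeasure ρ] {R : ℝ}
    (hR : 0 ≤ R) (hρ : Car ρ R) (hδ : ∀ δ : ℝ, 0 < δ → 0 < ρ {z : ℂ | z.re < δ}) {κ B σ0 X : ℝ} (hκ : 0 < κ)
    (hB : 0 ≤ B) (hX : 0 ≤ X) :
    ∃ η H Q0 : ℝ, 0 < η ∧ 0 < H ∧ 1 < Q0 ∧ ∀ (L : ℂ → ℂ) (Q : ℝ → ℝ), Mem θ m L Q → ∀ T : ℝ, Q0 ≤ Q T →
      ∀ S : Finset ℂ, (∀ s ∈ S, 1 / 2 + κ ≤ s.re ∧ ‖s - T * I‖ ≤ X) →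
      κ * Real.log (Q T) ≤ ∑ s ∈ S, (mult L s : ℝ) →
      ∀ g : ℂ → ℂ, MulQ B σ0 R η (Q T) T g →
      ENNReal.ofReal η ≤ volume {t : ℝ | |t - T| ≤ H ∧ Q T ^ η ≤ GMn ρ (fun s => L s * g s) t} := by
  obtain ⟨η, H, Q0, hη, hH, hQ0, HM⟩ := multLL hm hθ0 hθ hR hρ hδ (σ0 := σ0) hκ hB hX
  refine ⟨η, H, Q0, hη, hH, hQ0, ?_⟩
  rintro L Q ⟨N, μ, α, ε, Λ, hD, rfl, rfl⟩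
  exact HM N μ α ε Λ hD

theorem lawMem (hm : 1 ≤ m) (hθ0 : 0 ≤ θ) (hθ : θ < 1 / 2) {ρ : Measure ℂ} [IsProbabilityMeasure ρ] {R : ℝ}
    (hR : 0 ≤ R) (hρ : Car ρ R) (hδ : ∀ δ : ℝ, 0 < δ → 0 < ρ {z : ℂ | z.re < δ}) {κ B σ0 : ℝ} (hκ : 0 < κ)
    (hB : 0 ≤ B) :
    ∃ η H Q0 : ℝ, 0 < η ∧ 0 < H ∧ 1 < Q0 ∧ ∀ (L : ℂ → ℂ) (Q : ℝ → ℝ), Mem θ m L Q → ∀ T : ℝ, Q0 ≤ Q T →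
      Q T ^ κ ≤ ‖L (1 / 2 + T * I)‖ → ∀ g : ℂ → ℂ, MulQ B σ0 R η (Q T) T g →
      ENNReal.ofReal η ≤ volume {t : ℝ | |t - T| ≤ H ∧ Q T ^ η ≤ GMn ρ (fun s => L s * g s) t} := by
  obtain ⟨η, H, Q0, hη, hH, hQ0, HM⟩ := lawLL hm hθ0 hθ hR hρ hδ (σ0 := σ0) hκ hB
  refine ⟨η, H, Q0, hη, hH, hQ0, ?_⟩
  rintro L Q ⟨N, μ, α, ε, Λ, hD, rfl, rfl⟩
  exact HM N μ α ε Λ hD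

/-- the basic facts for a member -/
theorem factsMem (hm : 1 ≤ m) (hθ0 : 0 ≤ θ) (hθ : θ < 1 / 2) : ∃ A : ℝ, 1 ≤ A ∧
    ∀ (L : ℂ → ℂ) (Q : ℝ → ℝ), Mem θ m L Q → Differentiable ℂ L ∧ (∀ T : ℝ, 1 ≤ Q T) ∧
      (∀ (T : ℝ) (s : ℂ), 1 / 2 ≤ s.re →
        log⁺ ‖L (s + T * I)‖ ≤ A + Real.log (Q T) + m * Real.log (‖s‖ + 1)) ∧
      (∀ s : ℂ, 2 ≤ s.re → L s ≠ 0) ∧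
      (∀ T v : ℝ, Real.log (Q (T + v)) ≤ Real.log (Q T) + m * |v|) := by
  obtain ⟨A, hA, HG⟩ := growth hm hθ0 hθ
  refine ⟨A, hA, ?_⟩
  rintro L Q ⟨N, μ, α, ε, Λ, hD, rfl, rfl⟩
  obtain ⟨h1, h2, h3, h4⟩ := HG N μ α ε Λ hD
  exact ⟨h1, h2, h3, fun s hs => (h4 s hs).1, fun T v => cq_move hD.d.one_le μ T v⟩

end Pool.Agent.V7H83.CZ
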