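import Pool.Agent.V7H88.BS.A

/-!
# Backlund's theorem in thin domains
-/

set_option autoImplicit false

open Complex Filter Topology Metric Set
open H370 H370.Loc

namespace Pool.Agent.V7H83.CZ

/-- the parameter of the map -/
noncomputable def al (p : ℝ) : ℝ := 1 - Real.exp (-(1 / p))

/-- the radius of the disc -/
noncomputable def be (p : ℝ) : ℝ := (1 - Real.exp (-1 - 1 / p)) / al p

/-- a map of a disc of radius larger than one onto a thin neighbourhood of the segment `[0,1]` -/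
noncomputable def ps (p : ℝ) (w : ℂ) : ℂ := -(p * Complex.log (1 - al p * w))

lemma al_pos {p : ℝ} (hp : 0 < p) : 0 < al p := by
  unfold al
  have h : -(1 / p) < 0 := by
    have : 0 < 1 / p := by positivity
    linarith
  have : Real.exp (-(1 / p)) < 1 := (Real.exp_lt_exp.2 h).trans_eq Real.exp_zero
  linarith

lemma al_lt (p : ℝ) : al p < 1 := by
  unfold al
  linarith [Real.exp_pos (-(1 / p))]

lemma be_gt {p : ℝ} (hp : 0 < p) : 1 < be p := by
  unfold be
  rw [lt_div_iff₀ (al_pos hp), one_mul]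
  unfold al
  have : Real.exp (-1 - 1 / p) < Real.exp (-(1 / p)) := Real.exp_lt_exp.2 (by linarith)
  linarith

lemma al_be {p : ℝ} (hp : 0 < p) : al p * be p = 1 - Real.exp (-1 - 1 / p) := by
  unfold be
  have := (al_pos hp).ne'
  field_simp

lemma sub_mem {p : ℝ} (hp : 0 < p) {w : ℂ} (hw : ‖w‖ ≤ be p) :
    Real.exp (-1 - 1 / p) ≤ (1 - al p * w).re ∧ ‖1 - al p * w‖ ≤ 2 := by
  have ha := al_pos hp
  have h1 : ‖(al p : ℂ) * w‖ ≤ 1 - Real.exp (-1 - 1 / p) := by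
    rw [norm_mul, Complex.norm_real, Real.norm_of_nonneg ha.le, ← al_be hp]
    exact mul_le_mul_of_nonneg_left hw ha.le
  have h2 := (abs_le.1 (Complex.abs_re_le_norm ((al p : ℂ) * w))).2
  constructor
  · rw [Complex.sub_re, Complex.one_re]
    linarith
  · have h3 := norm_sub_le (1 : ℂ) (al p * w)
    rw [norm_one] at h3
    linarith [Real.exp_pos (-1 - 1 / p)]

lemma ps_zero (p : ℝ) : ps p 0 = 0 := by
  unfold ps; simp

lemma ps_one {p : ℝ} (hp : 0 < p) : ps p 1 = 1 := by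
  unfold ps al
  rw [mul_one]
  push_cast
  rw [sub_sub_cancel]
  have e : Complex.exp (-(1 / (p : ℂ))) = ((Real.exp (-(1 / p)) : ℝ) : ℂ) := by push_cast; rfl
  rw [e, ← Complex.ofReal_log (Real.exp_pos _).le, Real.log_exp]
  have hp' : (p : ℂ) ≠ 0 := by exact_mod_cast hp.ne'
  push_cast
  field_simp

/-- the image of the disc -/
lemma ps_mem {p : ℝ} (hp : 0 < p) {w : ℂ} (hw : ‖w‖ ≤ be p) :
    -p ≤ (ps p w).re ∧ (ps p w).re ≤ 1 + p ∧ |(ps p w).im| ≤ 2 * p := by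
  obtain ⟨h1, h2⟩ := sub_mem hp hw
  have h0 : 0 < (1 - al p * w).re := lt_of_lt_of_le (Real.exp_pos _) h1
  have hn : 0 < ‖1 - al p * w‖ := lt_of_lt_of_le h0 ((le_abs_self _).trans (Complex.abs_re_le_norm _))
  have hre : (ps p w).re = -(p * Real.log ‖1 - al p * w‖) := by
    unfold ps
    rw [Complex.neg_re, Complex.re_ofReal_mul, Complex.log_re]
  have him : (ps p w).im = -(p * (1 - al p * w).arg) := by
    unfold ps
    rw [Complex.neg_im, Complex.im_ofReal_mul, Complex.log_im]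
  have h3 : Real.log ‖1 - al p * w‖ ≤ 1 := by
    have h4 := Real.log_le_log hn h2
    have h5 : Real.log 2 ≤ 1 := by
      have := Real.log_two_lt_d9
      linarith
    linarith
  have h4 : -1 - 1 / p ≤ Real.log ‖1 - al p * w‖ := by
    rw [Real.le_log_iff_exp_le hn]
    exact h1.trans ((le_abs_self _).trans (Complex.abs_re_le_norm _))
  have hpp : p * (1 / p) = 1 := by field_simp
  refine ⟨?_, ?_, ?_⟩
  · rw [hre]; nlinarith
  · rw [hre]; nlinarith
  · rw [him, abs_neg, abs_mul, abs_of_pos hp]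
    have h5 : |(1 - al p * w).arg| ≤ Real.pi / 2 := (Complex.abs_arg_le_pi_div_two_iff).2 h0.le
    have h6 := Real.pi_le_four
    nlinarith

lemma ps_small {p : ℝ} (hp : 0 < p) {w : ℂ} (hw : ‖w‖ ≤ 1 / 2) : ‖ps p w‖ ≤ 2 * p := by
  have ha := al_pos hp
  have ha1 := al_lt p
  have h1 : ‖-((al p : ℂ) * w)‖ ≤ 1 / 2 := by
    rw [norm_neg, norm_mul, Complex.norm_real, Real.norm_of_nonneg ha.le]
    nlinarith [norm_nonneg w]
  have h2 := Complex.norm_log_one_add_half_le_self h1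
  unfold ps
  rw [norm_neg, norm_mul, Complex.norm_real, Real.norm_of_nonneg hp.le, sub_eq_add_neg]
  nlinarith

lemma ps_diff {p : ℝ} (hp : 0 < p) {w : ℂ} (hw : ‖w‖ ≤ be p) :
    AnalyticAt ℂ (ps p) w ∧ deriv (ps p) w ≠ 0 := by
  obtain ⟨h1, -⟩ := sub_mem hp hw
  have h0 : 0 < (1 - al p * w).re := lt_of_lt_of_le (Real.exp_pos _) h1
  have hs : 1 - al p * w ∈ slitPlane := Or.inl h0
  have hne : 1 - (al p : ℂ) * w ≠ 0 := slitPlane_ne_zero hs
  have hd : HasDerivAt (ps p) (-(p * (-(al p : ℂ) / (1 - al p * w)))) w := by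
    unfold ps
    have h2 : HasDerivAt (fun w : ℂ => 1 - (al p : ℂ) * w) (-(al p : ℂ)) w := by
      simpa using ((hasDerivAt_id w).const_mul (al p : ℂ)).const_sub 1
    exact ((h2.clog hs).const_mul (p : ℂ)).neg
  have ha : AnalyticAt ℂ (ps p) w := by
    unfold ps
    have h3 : AnalyticAt ℂ (fun w : ℂ => 1 - (al p : ℂ) * w) w := by fun_prop
    have h4 : AnalyticAt ℂ (fun w : ℂ => Complex.log (1 - (al p : ℂ) * w)) w := h3.clog hs
    exact (analyticAt_const.mul h4).neg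
  refine ⟨ha, ?_⟩
  rw [hd.deriv]
  have hp' : (p : ℂ) ≠ 0 := by exact_mod_cast hp.ne'
  have ha' : (al p : ℂ) ≠ 0 := by exact_mod_cast (al_pos hp).ne'
  exact neg_ne_zero.2 (mul_ne_zero hp' (div_ne_zero (neg_ne_zero.2 ha') hne))

lemma ps_inj {p : ℝ} (hp : 0 < p) {v w : ℂ} (hv : ‖v‖ ≤ be p) (hw : ‖w‖ ≤ be p) (h : ps p v = ps p w) : v = w := by
  have h1 : 0 < (1 - al p * v).re := lt_of_lt_of_le (Real.exp_pos _) (sub_mem hp hv).1
  have h2 : 0 < (1 - al p * w).re := lt_of_lt_of_le (Real.exp_pos _) (sub_mem hp hw).1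
  have hv0 : 1 - (al p : ℂ) * v ≠ 0 := slitPlane_ne_zero (Or.inl h1)
  have hw0 : 1 - (al p : ℂ) * w ≠ 0 := slitPlane_ne_zero (Or.inl h2)
  have hp' : (p : ℂ) ≠ 0 := by exact_mod_cast hp.ne'
  have ha' : (al p : ℂ) ≠ 0 := by exact_mod_cast (al_pos hp).ne'
  unfold ps at h
  have h3 : Complex.log (1 - al p * v) = Complex.log (1 - al p * w) := mul_left_cancel₀ hp' (neg_injective h)
  have h4 := congrArg Complex.exp h3
  rw [Complex.exp_log hv0, Complex.exp_log hw0] at h4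
  have h5 : (al p : ℂ) * v = al p * w := by linear_combination -h4
  exact mul_left_cancel₀ ha' h5

/-- **Backlund's theorem in a thin rectangle**: few zeros in `ρ/2 ≤ Re u ≤ b + 1`, `|Im u - y| ≤ h` imply small
values at `Re u ≥ ρ`, `Im u = y` -/
theorem thin {b h ρ B ε : ℝ} (hb : 1 < b) (hh : 0 < h) (hρ : 0 < ρ) (hB : 0 ≤ B) (hε : 0 < ε) :
    ∃ η L₀ : ℝ, 0 < η ∧ 0 < L₀ ∧ ∀ (F : ℂ → ℂ) (x y L : ℝ), L₀ ≤ L → ρ ≤ x → x ≤ 1 →
      (∀ u : ℂ, ρ / 2 ≤ u.re → u.re ≤ b + 1 → |u.im - y| ≤ h → AnalyticAt ℂ F u ∧ ‖F u‖ ≤ Real.exp (B * L)) →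
      (∀ u : ℂ, b - 1 ≤ u.re → u.re ≤ b + 1 → |u.im - y| ≤ h →
        Real.exp (-(η * L)) ≤ ‖F u‖ ∧ ‖F u‖ ≤ Real.exp (η * L)) →
      (∀ S : Finset ℂ, (∀ u ∈ S, F u = 0 ∧ ρ / 2 ≤ u.re ∧ u.re ≤ b + 1 ∧ |u.im - y| ≤ h) →
        ∑ u ∈ S, (mult F u : ℝ) ≤ η * L) →
      ‖F ((x : ℂ) + y * I)‖ ≤ Real.exp (ε * L) := by
  classical
  obtain ⟨p, hp⟩ : ∃ p : ℝ, p = min (min (ρ / (2 * b)) (h / (2 * b))) (1 / (2 * b)) := ⟨_, rfl⟩
  have hb0 : 0 < b := by linarith
  have hp0 : 0 < p := by rw [hp]; positivity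
  have hp1 : b * p ≤ ρ / 2 := by
    have : p ≤ ρ / (2 * b) := by rw [hp]; exact (min_le_left _ _).trans (min_le_left _ _)
    calc b * p ≤ b * (ρ / (2 * b)) := mul_le_mul_of_nonneg_left this hb0.le
      _ = ρ / 2 := by field_simp
  have hp2 : b * p ≤ h / 2 := by
    have : p ≤ h / (2 * b) := by rw [hp]; exact (min_le_left _ _).trans (min_le_right _ _)
    calc b * p ≤ b * (h / (2 * b)) := mul_le_mul_of_nonneg_left this hb0.le
      _ = h / 2 := by field_simp
  have hp3 : b * p ≤ 1 / 2 := by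
    have : p ≤ 1 / (2 * b) := by rw [hp]; exact min_le_right _ _
    calc b * p ≤ b * (1 / (2 * b)) := mul_le_mul_of_nonneg_left this hb0.le
      _ = 1 / 2 := by field_simp
  obtain ⟨η, L₀, hη, hL₀, HB⟩ := Pool.Agent.V7H88.BS.backlund (R := be p) (r := 1) (l := 1 / 2) (B := B) (ε := ε)
    (by norm_num) (by norm_num) (be_gt hp0) hB hε
  refine ⟨η, L₀, hη, hL₀, fun F x y L hL hx0 hx1 hF hR hZ => ?_⟩
  obtain ⟨g, hg⟩ : ∃ g : ℂ → ℂ, g = fun w => (b : ℂ) + y * I - (b - x : ℝ) * ps p w := ⟨_, rfl⟩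
  have hbx : 0 < b - x := by linarith
  have hbx2 : b - x ≤ b := by linarith
  have hre : ∀ w, (g w).re = b - (b - x) * (ps p w).re := fun w => by
    rw [hg]
    simp only [Complex.sub_re, Complex.add_re, Complex.ofReal_re, Complex.mul_re, Complex.I_re, Complex.I_im,
      Complex.ofReal_im, mul_zero, mul_one, sub_zero, zero_mul, add_zero]
  have him : ∀ w, (g w).im - y = -((b - x) * (ps p w).im) := fun w => by
    rw [hg]
    simp only [Complex.sub_im, Complex.add_im, Complex.ofReal_re, Complex.mul_im, Complex.I_re, Complex.I_im,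
      Complex.ofReal_im, mul_zero, mul_one, zero_mul, add_zero, zero_add]
    ring
  have hmem : ∀ w : ℂ, ‖w‖ ≤ be p → ρ / 2 ≤ (g w).re ∧ (g w).re ≤ b + 1 ∧ |(g w).im - y| ≤ h := by
    intro w hw
    obtain ⟨h1, h2, h3⟩ := ps_mem hp0 hw
    refine ⟨?_, ?_, ?_⟩
    · rw [hre]
      have : (b - x) * (ps p w).re ≤ (b - x) * (1 + p) := mul_le_mul_of_nonneg_left h2 hbx.le
      nlinarith
    · rw [hre]
      have : (b - x) * (-p) ≤ (b - x) * (ps p w).re := mul_le_mul_of_nonneg_left h1 hbx.le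
      nlinarith
    · rw [him, abs_neg, abs_mul, abs_of_pos hbx]
      calc (b - x) * |(ps p w).im| ≤ b * (2 * p) := by gcongr
        _ ≤ h := by linarith
  have hsm : ∀ w : ℂ, ‖w‖ ≤ 1 / 2 → b - 1 ≤ (g w).re ∧ (g w).re ≤ b + 1 ∧ |(g w).im - y| ≤ h := by
    intro w hw
    have hwb : ‖w‖ ≤ be p := hw.trans (by have := be_gt hp0; linarith)
    obtain ⟨-, h2, h3⟩ := hmem w hwb
    refine ⟨?_, h2, h3⟩
    have h4 := ps_small hp0 hw
    have h5 := (le_abs_self _).trans (Complex.abs_re_le_norm (ps p w))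
    rw [hre]
    have : (b - x) * (ps p w).re ≤ (b - x) * (2 * p) := mul_le_mul_of_nonneg_left (h5.trans h4) hbx.le
    nlinarith
  have hgan : ∀ w : ℂ, ‖w‖ ≤ be p → AnalyticAt ℂ g w ∧ deriv g w ≠ 0 := by
    intro w hw
    obtain ⟨h1, h2⟩ := ps_diff hp0 hw
    have hd : HasDerivAt g (-(((b - x : ℝ) : ℂ) * deriv (ps p) w)) w := by
      rw [hg]
      exact (h1.differentiableAt.hasDerivAt.const_mul _).const_sub _
    refine ⟨?_, ?_⟩
    · rw [hg]
      exact analyticAt_const.sub (analyticAt_const.mul h1)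
    · rw [hd.deriv]
      have : ((b - x : ℝ) : ℂ) ≠ 0 := by exact_mod_cast hbx.ne'
      exact neg_ne_zero.2 (mul_ne_zero this h2)
  have hginj : ∀ v w : ℂ, ‖v‖ ≤ be p → ‖w‖ ≤ be p → g v = g w → v = w := by
    intro v w hv hw hvw
    rw [hg] at hvw
    simp only at hvw
    have hne : ((b - x : ℝ) : ℂ) ≠ 0 := by exact_mod_cast hbx.ne'
    exact ps_inj hp0 hv hw (mul_left_cancel₀ hne (by linear_combination -hvw))
  have hmult : ∀ w : ℂ, ‖w‖ ≤ be p → mult (fun w => F (g w)) w = mult F (g w) := by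
    intro w hw
    obtain ⟨h1, h2⟩ := hgan w hw
    have h := analyticOrderAt_comp_of_deriv_ne_zero (f := F) h1 h2
    unfold mult analyticOrderNatAt
    rw [← h]
    rfl
  have hfin := HB (fun w => F (g w)) 0 L hL ?_ ?_ ?_ ?_ ?_ ?_ 1 (by simp)
  · have e : g 1 = (x : ℂ) + y * I := by
      rw [hg]
      simp only [ps_one hp0]
      push_cast
      ring
    simp only [e] at hfin
    exact hfin
  · intro w hw
    rw [mem_closedBall_zero_iff] at hw
    obtain ⟨h1, h2, h3⟩ := hmem w hw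
    exact (hF _ h1 h2 h3).1.comp (hgan w hw).1
  · intro w hw
    rw [mem_closedBall_zero_iff] at hw
    obtain ⟨h1, h2, h3⟩ := hmem w hw
    exact (hF _ h1 h2 h3).2
  · intro w hw
    rw [mem_closedBall_zero_iff] at hw
    obtain ⟨h1, h2, h3⟩ := hsm w hw
    exact (hR _ h1 h2 h3).2
  · obtain ⟨h1, h2, h3⟩ := hsm 0 (by simp)
    exact (hR _ h1 h2 h3).1
  · intro w hw
    rw [mem_ball_zero_iff] at hw
    obtain ⟨h1, h2, h3⟩ := hsm w hw.le
    exact norm_pos_iff.1 (lt_of_lt_of_le (Real.exp_pos _) (hR _ h1 h2 h3).1)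
  · intro S hS
    have h1 := hZ (S.image g) (by
      intro u hu
      obtain ⟨w, hw, rfl⟩ := Finset.mem_image.1 hu
      obtain ⟨h2, h3⟩ := hS w hw
      rw [mem_closedBall_zero_iff] at h2
      exact ⟨h3, hmem w h2⟩)
    rw [Finset.sum_image] at h1
    · refine le_trans (le_of_eq ?_) h1
      refine Finset.sum_congr rfl fun w hw => ?_
      have h2 := (hS w hw).1
      rw [mem_closedBall_zero_iff] at h2
      rw [hmult w h2]
    · intro v hv w hw hvw
      have h2 := (hS v hv).1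
      have h3 := (hS w hw).1
      rw [mem_closedBall_zero_iff] at h2 h3
      exact hginj v w h2 h3 hvw

end Pool.Agent.V7H83.CZ
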