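import Pool.Agent.V7H83.CZ.A
import Pool.Agent.W169.HF.DefsB

/-!
# A large value on the critical line forces many zeros in every thin rectangle
-/

set_option autoImplicit false

open Complex Filter Topology Metric Set
open H370 H370.Loc
open scoped ComplexConjugate

namespace Pool.Agent.V7H83.CZ

open Pool.Agent.W169.HF

lemma mult_mul_ne {f g : ℂ → ℂ} {u : ℂ} (hf : AnalyticAt ℂ f u) (hg : AnalyticAt ℂ g u) (h : g u ≠ 0) :
    mult (fun z => f z * g z) u = mult f u := by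
  have h1 : analyticOrderAt (fun z => f z * g z) u = analyticOrderAt f u := by
    have h2 := analyticOrderAt_mul hf hg
    have h3 : analyticOrderAt g u = 0 := hg.analyticOrderAt_eq_zero.2 h
    rw [h3, add_zero] at h2
    exact h2
  unfold mult analyticOrderNatAt
  rw [h1]

lemma ud_sym {K ϑ0 ℓ G : ℝ} {f : ℂ → ℂ} (H : UD K ϑ0 ℓ G f) (ρ y : ℝ) :
    ‖f (-(ρ : ℂ) + y * I)‖ = ‖f ((ρ : ℂ) + y * I)‖ := by
  obtain ⟨ε, hε, h⟩ := H.fe
  rw [h (-(ρ : ℂ) + y * I), norm_mul, hε, one_mul, Complex.norm_conj]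
  congr 2
  simp only [map_add, map_neg, map_mul, Complex.conj_ofReal, Complex.conj_I]
  ring

/-- **many zeros** -/
theorem manyUD {K ϑ0 κ h : ℝ} (hK : 1 ≤ K) (hϑ0 : 1 / 2 ≤ ϑ0) (hϑ02 : ϑ0 ≤ 2) (hκ : 0 < κ) (hh : 0 < h) :
    ∃ c ℓ0 : ℝ, 0 < c ∧ 0 < ℓ0 ∧ ∀ (ℓ G : ℝ) (f : ℂ → ℂ), ℓ0 ≤ ℓ → UD K ϑ0 ℓ G f →
      G * Real.exp (κ * ℓ) ≤ ‖f 0‖ →
      ∃ S : Finset ℂ, (∀ u ∈ S, f u = 0 ∧ c ≤ u.re ∧ |u.im| ≤ h) ∧ c * ℓ ≤ ∑ u ∈ S, (mult f u : ℝ) := by
  classical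
  obtain ⟨h2, hh2⟩ : ∃ h2 : ℝ, h2 = min (h / 2) (1 / 2) := ⟨_, rfl⟩
  have hh20 : 0 < h2 := by rw [hh2]; positivity
  have hh2h : h2 ≤ h / 2 := by rw [hh2]; exact min_le_left _ _
  have hh21 : h2 ≤ 1 / 2 := by rw [hh2]; exact min_le_right _ _
  obtain ⟨A, hA⟩ : ∃ A : ℝ, A = ϑ0 + 1 := ⟨_, rfl⟩
  have hA0 : 0 < A := by linarith
  obtain ⟨M, hM⟩ : ∃ M : ℝ, M = 2 * A / h2 ^ 2 := ⟨_, rfl⟩
  have hM0 : 0 < M := by rw [hM]; positivity
  have hMh : M * h2 ^ 2 = 2 * A := by rw [hM]; field_simp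
  obtain ⟨ρ, hρ⟩ : ∃ ρ : ℝ, ρ = min (h2 / 2) (min (κ / 8) (κ / (8 * M))) := ⟨_, rfl⟩
  have hρ0 : 0 < ρ := by rw [hρ]; positivity
  have hρ1 : ρ ≤ h2 / 2 := by rw [hρ]; exact min_le_left _ _
  have hρ2 : ρ ≤ κ / 8 := by rw [hρ]; exact (min_le_right _ _).trans (min_le_left _ _)
  have hρ3 : M * ρ ≤ κ / 8 := by
    have : ρ ≤ κ / (8 * M) := by rw [hρ]; exact (min_le_right _ _).trans (min_le_right _ _)
    calc M * ρ ≤ M * (κ / (8 * M)) := mul_le_mul_of_nonneg_left this hM0.le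
      _ = κ / 8 := by field_simp
  have hρ4 : M * ρ ^ 2 ≤ κ / 8 := by nlinarith
  obtain ⟨η, L₀, hη, hL₀, HT⟩ := thin (b := ϑ0 + 1) (h := h2) (ρ := ρ) (B := A) (ε := κ / 8) (by linarith)
    hh20 hρ0 hA0.le (by positivity)
  refine ⟨min η (ρ / 2), max L₀ (max (18 * K) (18 * K / η)), by positivity, lt_max_of_lt_left hL₀, ?_⟩
  intro ℓ G f hℓ H hf0
  have hℓ1 : L₀ ≤ ℓ := (le_max_left _ _).trans hℓ
  have hℓ2 : 18 * K ≤ ℓ := ((le_max_left _ _).trans (le_max_right _ _)).trans hℓ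
  have hℓ3 : 18 * K ≤ η * ℓ := by
    have : 18 * K / η ≤ ℓ := ((le_max_right _ _).trans (le_max_right _ _)).trans hℓ
    rw [div_le_iff₀ hη] at this
    linarith
  have hℓ0 : 0 < ℓ := by linarith
  have hG := H.hG
  have hfd : Differentiable ℂ f := H.slow.1
  have hfa : ∀ u, AnalyticAt ℂ f u := fun u => hfd.analyticAt u
  by_contra hcon
  push Not at hcon
  -- the normalized function
  obtain ⟨g, hg⟩ : ∃ g : ℂ → ℂ, g = fun u => cexp (-(ℓ * u)) / G := ⟨_, rfl⟩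
  have hGC : (G : ℂ) ≠ 0 := by exact_mod_cast hG.ne'
  have hga : ∀ u, AnalyticAt ℂ g u := fun u => by
    rw [hg]
    have : Differentiable ℂ fun u : ℂ => cexp (-(ℓ * u)) / G := by fun_prop
    exact this.analyticAt u
  have hgne : ∀ u, g u ≠ 0 := fun u => by
    rw [hg]
    exact div_ne_zero (Complex.exp_ne_zero _) hGC
  have hgn : ∀ u : ℂ, ‖g u‖ = Real.exp (-(ℓ * u.re)) / G := fun u => by
    rw [hg]
    simp only [norm_div, Complex.norm_exp, Complex.norm_real, Real.norm_of_nonneg hG.le, Complex.neg_re,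
      Complex.re_ofReal_mul]
  have hgf : ∀ (u : ℂ) (E : ℝ), ‖f u‖ ≤ G * Real.exp E → ‖f u * g u‖ ≤ Real.exp (E - ℓ * u.re) := by
    intro u E hE
    rw [norm_mul, hgn, ← mul_div_assoc, div_le_iff₀ hG]
    calc ‖f u‖ * Real.exp (-(ℓ * u.re)) ≤ G * Real.exp E * Real.exp (-(ℓ * u.re)) := by gcongr
      _ = Real.exp (E - ℓ * u.re) * G := by
          rw [mul_assoc, ← Real.exp_add, sub_eq_add_neg, mul_comm]
  have hgf' : ∀ (u : ℂ) (E : ℝ), G * Real.exp E ≤ ‖f u‖ → Real.exp (E - ℓ * u.re) ≤ ‖f u * g u‖ := by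
    intro u E hE
    rw [norm_mul, hgn, ← mul_div_assoc, le_div_iff₀ hG]
    calc Real.exp (E - ℓ * u.re) * G = G * Real.exp E * Real.exp (-(ℓ * u.re)) := by
          rw [mul_assoc, ← Real.exp_add, sub_eq_add_neg, mul_comm]
      _ ≤ ‖f u‖ * Real.exp (-(ℓ * u.re)) := by gcongr
  have hnorm : ∀ u : ℂ, -1 ≤ u.re → u.re ≤ ϑ0 + 1 + 1 → |u.im| ≤ 1 → K * (1 + ‖u‖ ^ 2) ≤ 18 * K := by
    intro u hu1 hu2 hu3
    have h3 := abs_le.1 hu3
    have h4 : ‖u‖ ^ 2 ≤ 17 := by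
      rw [Complex.sq_norm, Complex.normSq_apply]
      nlinarith
    nlinarith
  -- the bound on the line `Re u = ρ`
  have hline : ∀ y : ℝ, |y| ≤ h2 → ‖f ((ρ : ℂ) + y * I)‖ ≤ G * Real.exp (κ / 4 * ℓ) := by
    intro y hy
    have him : ∀ u : ℂ, |u.im - y| ≤ h2 → |u.im| ≤ 2 * h2 := fun u hu => by
      calc |u.im| = |(u.im - y) + y| := by ring_nf
        _ ≤ |u.im - y| + |y| := abs_add_le _ _
        _ ≤ 2 * h2 := by linarith
    have h3 := HT (fun u => f u * g u) ρ y ℓ hℓ1 le_rfl (by linarith) (by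
      intro u hu1 hu2 hu3
      have h4 := hnorm u (by linarith) hu2 ((him u hu3).trans (by linarith))
      refine ⟨(hfa u).mul (hga u), (hgf u _ (H.up u)).trans (Real.exp_le_exp.2 ?_)⟩
      have h5 : max |u.re| ϑ0 ≤ u.re + ϑ0 := max_le (by rw [abs_of_nonneg (by linarith)]; linarith) (by linarith)
      have h6 : ℓ * max |u.re| ϑ0 ≤ ℓ * (u.re + ϑ0) := mul_le_mul_of_nonneg_left h5 hℓ0.le
      rw [hA]
      nlinarith) (by
      intro u hu1 hu2 hu3
      have hu0 : ϑ0 ≤ u.re := by linarith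
      have h4 := hnorm u (by linarith) hu2 ((him u hu3).trans (by linarith))
      have h5 : max |u.re| ϑ0 = u.re := by rw [abs_of_nonneg (by linarith), max_eq_left hu0]
      have h6 := hgf u _ (H.up u)
      have h7 := hgf' u _ (H.lo u hu0)
      rw [h5] at h6
      refine ⟨le_trans (Real.exp_le_exp.2 ?_) h7, h6.trans (Real.exp_le_exp.2 ?_)⟩
      · linarith
      · linarith) (by
      intro S hS
      have h4 := hcon S (fun u hu => by
        obtain ⟨h5, h6, -, h8⟩ := hS u hu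
        refine ⟨(mul_eq_zero.1 h5).resolve_right (hgne u), (min_le_right _ _).trans h6, ?_⟩
        exact (him u h8).trans (by linarith))
      have h5 : ∑ u ∈ S, (mult (fun z => f z * g z) u : ℝ) = ∑ u ∈ S, (mult f u : ℝ) :=
        Finset.sum_congr rfl fun u _ => by rw [mult_mul_ne (hfa u) (hga u) (hgne u)]
      rw [h5]
      refine h4.le.trans ?_
      exact mul_le_mul_of_nonneg_right (min_le_left _ _) hℓ0.le)
    have h9 : ‖f ((ρ : ℂ) + y * I) * g ((ρ : ℂ) + y * I)‖ =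
        ‖f ((ρ : ℂ) + y * I)‖ * (Real.exp (-(ℓ * ρ)) / G) := by
      rw [norm_mul, hgn]
      simp
    rw [h9, ← mul_div_assoc, div_le_iff₀ hG] at h3
    calc ‖f ((ρ : ℂ) + y * I)‖ = ‖f ((ρ : ℂ) + y * I)‖ * Real.exp (-(ℓ * ρ)) * Real.exp (ℓ * ρ) := by
          rw [mul_assoc, ← Real.exp_add, neg_add_cancel, Real.exp_zero, mul_one]
      _ ≤ Real.exp (κ / 8 * ℓ) * G * Real.exp (ℓ * ρ) := by gcongr
      _ = G * Real.exp (κ / 8 * ℓ + ℓ * ρ) := by rw [Real.exp_add]; ring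
      _ ≤ G * Real.exp (κ / 4 * ℓ) := by
          refine mul_le_mul_of_nonneg_left (Real.exp_le_exp.2 ?_) hG.le
          nlinarith
  -- the maximum principle
  have hmax := Pool.Agent.V7H88.BS.rect_max (f := fun u => f u * cexp (M * ℓ * u ^ 2)) (a := -ρ) (b := ρ)
    (c := -h2) (d := h2) (M := G * Real.exp (3 * κ / 8 * ℓ)) (by linarith) (by linarith)
    (fun z _ _ => (hfd z).mul (by fun_prop)) ?_ ?_ ?_ ?_ (z := 0) (by simp; linarith) (by simp; linarith)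
  · simp only [ne_eq, OfNat.ofNat_ne_zero, not_false_eq_true, zero_pow, mul_zero, Complex.exp_zero, mul_one] at hmax
    have h3 := hf0.trans hmax
    have h4 := le_of_mul_le_mul_left h3 hG
    rw [Real.exp_le_exp] at h4
    nlinarith
  all_goals
    have hE : ∀ z : ℂ, ‖cexp (M * ℓ * z ^ 2)‖ = Real.exp (M * ℓ * (z.re ^ 2 - z.im ^ 2)) := fun z => by
      rw [Complex.norm_exp]
      congr 1
      rw [← Complex.ofReal_mul, Complex.re_ofReal_mul, pow_two, Complex.mul_re]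
      ring
  · intro y hy
    have hy' : |y| ≤ h2 := abs_le.2 ⟨hy.1, hy.2⟩
    rw [norm_mul, hE]
    have e : (⟨-ρ, y⟩ : ℂ) = -(ρ : ℂ) + y * I := by
      apply Complex.ext <;> simp
    simp only
    have h3 : ‖f ⟨-ρ, y⟩‖ ≤ G * Real.exp (κ / 4 * ℓ) := by
      rw [e, ud_sym H]
      exact hline y hy'
    calc ‖f ⟨-ρ, y⟩‖ * Real.exp (M * ℓ * ((-ρ) ^ 2 - y ^ 2)) ≤
        G * Real.exp (κ / 4 * ℓ) * Real.exp (κ / 8 * ℓ) := by
          refine mul_le_mul h3 (Real.exp_le_exp.2 ?_) (Real.exp_pos _).le (by positivity)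
          nlinarith [sq_nonneg y, mul_pos hM0 hℓ0, mul_nonneg (mul_pos hM0 hℓ0).le (sq_nonneg y)]
      _ = G * Real.exp (3 * κ / 8 * ℓ) := by
          rw [mul_assoc, ← Real.exp_add]; congr 2; ring
  · intro y hy
    have hy' : |y| ≤ h2 := abs_le.2 ⟨hy.1, hy.2⟩
    rw [norm_mul, hE]
    have e : (⟨ρ, y⟩ : ℂ) = (ρ : ℂ) + y * I := by
      apply Complex.ext <;> simp
    simp only
    have h3 : ‖f ⟨ρ, y⟩‖ ≤ G * Real.exp (κ / 4 * ℓ) := by
      rw [e]
      exact hline y hy'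
    calc ‖f ⟨ρ, y⟩‖ * Real.exp (M * ℓ * (ρ ^ 2 - y ^ 2)) ≤
        G * Real.exp (κ / 4 * ℓ) * Real.exp (κ / 8 * ℓ) := by
          refine mul_le_mul h3 (Real.exp_le_exp.2 ?_) (Real.exp_pos _).le (by positivity)
          nlinarith [sq_nonneg y, mul_pos hM0 hℓ0, mul_nonneg (mul_pos hM0 hℓ0).le (sq_nonneg y)]
      _ = G * Real.exp (3 * κ / 8 * ℓ) := by
          rw [mul_assoc, ← Real.exp_add]; congr 2; ring
  all_goals
    have hside : ∀ (x s : ℝ), x ∈ Icc (-ρ) ρ → s ^ 2 = h2 ^ 2 → |s| ≤ 1 →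
        ‖f ⟨x, s⟩ * cexp (M * ℓ * (⟨x, s⟩ : ℂ) ^ 2)‖ ≤ G * Real.exp (3 * κ / 8 * ℓ) := by
      intro x s hx hs hs1
      rw [norm_mul, hE]
      simp only
      have h3 := H.up ⟨x, s⟩
      have h4 := hnorm ⟨x, s⟩ (by simp only; linarith [hx.1]) (by simp only; linarith [hx.2]) hs1
      have hxa : |x| ≤ ρ := abs_le.2 ⟨hx.1, hx.2⟩
      have h5 : max |x| ϑ0 = ϑ0 := max_eq_right (by linarith)
      simp only [h5] at h3
      have hx2 : x ^ 2 ≤ ρ ^ 2 := by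
        rw [← sq_abs x]
        exact pow_le_pow_left₀ (abs_nonneg x) hxa 2
      calc ‖f ⟨x, s⟩‖ * Real.exp (M * ℓ * (x ^ 2 - s ^ 2)) ≤
          G * Real.exp (A * ℓ) * Real.exp (-(A * ℓ)) := by
            refine mul_le_mul (h3.trans (mul_le_mul_of_nonneg_left (Real.exp_le_exp.2 ?_) hG.le))
              (Real.exp_le_exp.2 ?_) (Real.exp_pos _).le (by positivity)
            · rw [hA]; nlinarith
            · rw [hs]
              have h6 : x ^ 2 - h2 ^ 2 ≤ -(h2 ^ 2 / 2) := by nlinarith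
              have h7 : M * ℓ * (x ^ 2 - h2 ^ 2) ≤ M * ℓ * (-(h2 ^ 2 / 2)) :=
                mul_le_mul_of_nonneg_left h6 (by positivity)
              have h8 : M * ℓ * (-(h2 ^ 2 / 2)) = -(A * ℓ) := by
                have : M * ℓ * (-(h2 ^ 2 / 2)) = -((M * h2 ^ 2) * ℓ / 2) := by ring
                rw [this, hMh]
                ring
              linarith
        _ = G * 1 := by rw [mul_assoc, ← Real.exp_add, add_neg_cancel, Real.exp_zero]
        _ ≤ G * Real.exp (3 * κ / 8 * ℓ) := by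
            refine mul_le_mul_of_nonneg_left (Real.one_le_exp (by positivity)) hG.le
  · intro x hx
    exact hside x (-h2) hx (by ring) (by rw [abs_neg, abs_of_pos hh20]; linarith)
  · intro x hx
    exact hside x h2 hx rfl (by rw [abs_of_pos hh20]; linarith)

end Pool.Agent.V7H83.CZ
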