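import Pool.Agent.V7H83.CZ.B
import Pool.Agent.V7H52.GM.C

/-!
# A large value on the critical line forces large values in measure; zeros force large geometric means
-/

set_option autoImplicit false

open Complex Filter Topology Metric Set MeasureTheory
open H370 H370.Loc
open scoped ComplexConjugate

namespace Pool.Agent.V7H83.CZ

open Pool.Agent.W169.HF Pool.Agent.V7H52.GM Pool.Agent.H983R4.LH Real

/-- from a line near the critical line to the critical line -/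
theorem pushUD {K ϑ0 κ h2 : ℝ} (hK : 1 ≤ K) (hϑ0 : 1 / 2 ≤ ϑ0) (hϑ02 : ϑ0 ≤ 2) (hκ : 0 < κ) (hh20 : 0 < h2)
    (hh21 : h2 ≤ 1 / 2) : ∃ ρ0 : ℝ, 0 < ρ0 ∧ ρ0 ≤ 1 / 2 ∧ ∀ ρ : ℝ, 0 < ρ → ρ ≤ ρ0 → ∀ (ℓ G : ℝ) (f : ℂ → ℂ),
      18 * K ≤ ℓ → UD K ϑ0 ℓ G f →
      (∀ y : ℝ, |y| ≤ h2 → ‖f ((ρ : ℂ) + y * I)‖ ≤ G * Real.exp (κ / 4 * ℓ)) →
      ‖f 0‖ ≤ G * Real.exp (3 * κ / 8 * ℓ) := by
  obtain ⟨A, hA⟩ : ∃ A : ℝ, A = ϑ0 + 1 := ⟨_, rfl⟩
  have hA0 : 0 < A := by linarith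
  obtain ⟨M, hM⟩ : ∃ M : ℝ, M = 2 * A / h2 ^ 2 := ⟨_, rfl⟩
  have hM0 : 0 < M := by rw [hM]; positivity
  have hMh : M * h2 ^ 2 = 2 * A := by rw [hM]; field_simp
  refine ⟨min (h2 / 2) (κ / (8 * M)), by positivity, (min_le_left _ _).trans (by linarith), ?_⟩
  intro ρ hρ0 hρ ℓ G f hℓ2 H hline
  have hρ1 : ρ ≤ h2 / 2 := hρ.trans (min_le_left _ _)
  have hρ3 : M * ρ ≤ κ / 8 := by
    have : ρ ≤ κ / (8 * M) := hρ.trans (min_le_right _ _)
    calc M * ρ ≤ M * (κ / (8 * M)) := mul_le_mul_of_nonneg_left this hM0.le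
      _ = κ / 8 := by field_simp
  have hρ4 : M * ρ ^ 2 ≤ κ / 8 := by nlinarith
  have hℓ0 : 0 < ℓ := by linarith
  have hG := H.hG
  have hfd : Differentiable ℂ f := H.slow.1
  have hnorm : ∀ u : ℂ, -1 ≤ u.re → u.re ≤ ϑ0 + 1 + 1 → |u.im| ≤ 1 → K * (1 + ‖u‖ ^ 2) ≤ 18 * K := by
    intro u hu1 hu2 hu3
    have h3 := abs_le.1 hu3
    have h4 : ‖u‖ ^ 2 ≤ 17 := by
      rw [Complex.sq_norm, Complex.normSq_apply]
      nlinarith
    nlinarith
  have hE : ∀ z : ℂ, ‖cexp (M * ℓ * z ^ 2)‖ = Real.exp (M * ℓ * (z.re ^ 2 - z.im ^ 2)) := fun z => by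
    rw [Complex.norm_exp]
    congr 1
    rw [← Complex.ofReal_mul, Complex.re_ofReal_mul, pow_two, Complex.mul_re]
    ring
  have hside : ∀ (x s : ℝ), x ∈ Icc (-ρ) ρ → s ^ 2 = h2 ^ 2 → |s| ≤ 1 →
      ‖f ⟨x, s⟩ * cexp (M * ℓ * (⟨x, s⟩ : ℂ) ^ 2)‖ ≤ G * Real.exp (3 * κ / 8 * ℓ) := by
    intro x s hx hs hs1
    rw [norm_mul, hE]
    simp only
    have h3 := H.up ⟨x, s⟩
    have h4 := hnorm ⟨x, s⟩ (by simp only; linarith [hx.1]) (by simp only; linarith [hx.2]) hs1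
    have hxa : |x| ≤ ρ := abs_le.2 ⟨hx.1, hx.2⟩
    have h5 : max |x| ϑ0 = ϑ0 := max_eq_right (by linarith)
    simp only [h5] at h3
    have hx2 : x ^ 2 ≤ ρ ^ 2 := by
      rw [← sq_abs x]
      exact pow_le_pow_left₀ (abs_nonneg x) hxa 2
    calc ‖f ⟨x, s⟩‖ * Real.exp (M * ℓ * (x ^ 2 - s ^ 2)) ≤
        G * Real.exp (A * ℓ) * Real.exp (-(A * ℓ)) := by
          refine mul_le_mul (h3.trans (mul_le_mul_of_nonneg_left (Real.exp_le_exp.2 ?_) hG.le))
            (Real.exp_le_exp.2 ?_) (Real.exp_pos _).le (by positivity)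
          · rw [hA]; nlinarith
          · rw [hs]
            have h6 : x ^ 2 - h2 ^ 2 ≤ -(h2 ^ 2 / 2) := by nlinarith
            have h7 : M * ℓ * (x ^ 2 - h2 ^ 2) ≤ M * ℓ * (-(h2 ^ 2 / 2)) :=
              mul_le_mul_of_nonneg_left h6 (by positivity)
            have h8 : M * ℓ * (-(h2 ^ 2 / 2)) = -(A * ℓ) := by
              have : M * ℓ * (-(h2 ^ 2 / 2)) = -((M * h2 ^ 2) * ℓ / 2) := by ring
              rw [this, hMh]
              ring
            linarith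
      _ = G * 1 := by rw [mul_assoc, ← Real.exp_add, add_neg_cancel, Real.exp_zero]
      _ ≤ G * Real.exp (3 * κ / 8 * ℓ) := by
          refine mul_le_mul_of_nonneg_left (Real.one_le_exp (by positivity)) hG.le
  have hvert : ∀ x y : ℝ, x ^ 2 = ρ ^ 2 → ‖f ⟨x, y⟩‖ ≤ G * Real.exp (κ / 4 * ℓ) →
      ‖f ⟨x, y⟩ * cexp (M * ℓ * (⟨x, y⟩ : ℂ) ^ 2)‖ ≤ G * Real.exp (3 * κ / 8 * ℓ) := by
    intro x y hx h3
    rw [norm_mul, hE]
    simp only
    calc ‖f ⟨x, y⟩‖ * Real.exp (M * ℓ * (x ^ 2 - y ^ 2)) ≤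
        G * Real.exp (κ / 4 * ℓ) * Real.exp (κ / 8 * ℓ) := by
          refine mul_le_mul h3 (Real.exp_le_exp.2 ?_) (Real.exp_pos _).le (by positivity)
          rw [hx]
          nlinarith [sq_nonneg y, mul_pos hM0 hℓ0, mul_nonneg (mul_pos hM0 hℓ0).le (sq_nonneg y)]
      _ = G * Real.exp (3 * κ / 8 * ℓ) := by
          rw [mul_assoc, ← Real.exp_add]; congr 2; ring
  have hmax := Pool.Agent.V7H88.BS.rect_max (f := fun u => f u * cexp (M * ℓ * u ^ 2)) (a := -ρ) (b := ρ)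
    (c := -h2) (d := h2) (M := G * Real.exp (3 * κ / 8 * ℓ)) (by linarith) (by linarith)
    (fun z _ _ => (hfd z).mul (by fun_prop)) (fun y hy => by
      refine hvert (-ρ) y (by ring) ?_
      have e : (⟨-ρ, y⟩ : ℂ) = -(ρ : ℂ) + y * I := by
        apply Complex.ext <;> simp
      rw [e, ud_sym H]
      exact hline y (abs_le.2 ⟨hy.1, hy.2⟩)) (fun y hy => by
      refine hvert ρ y rfl ?_
      have e : (⟨ρ, y⟩ : ℂ) = (ρ : ℂ) + y * I := by
        apply Complex.ext <;> simp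
      rw [e]
      exact hline y (abs_le.2 ⟨hy.1, hy.2⟩))
    (fun x hx => hside x (-h2) hx (by ring) (by rw [abs_neg, abs_of_pos hh20]; linarith))
    (fun x hx => hside x h2 hx rfl (by rw [abs_of_pos hh20]; linarith))
    (z := 0) (by simp; linarith) (by simp; linarith)
  simpa using hmax

/-- the localizing factor -/
noncomputable def loc (h y k : ℝ) (s : ℂ) : ℂ := cexp (-(k * Complex.log (1 + (s - 1 / 2 - y * I) / h)))

lemma loc_slit {h y : ℝ} (hh : 0 < h) {s : ℂ} (hs : 1 / 2 ≤ s.re) :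
    1 ≤ (1 + (s - 1 / 2 - y * I) / h).re := by
  have e : (1 + (s - 1 / 2 - y * I) / h).re = 1 + (s.re - 1 / 2) / h := by
    rw [Complex.add_re, Complex.one_re, Complex.div_ofReal_re]
    simp
  rw [e]
  have : 0 ≤ (s.re - 1 / 2) / h := by apply div_nonneg <;> linarith
  linarith

lemma loc_an {h y k : ℝ} (hh : 0 < h) {s : ℂ} (hs : 1 / 2 ≤ s.re) : AnalyticAt ℂ (loc h y k) s := by
  have h1 := loc_slit (y := y) hh hs
  have h2 : 1 + (s - 1 / 2 - y * I) / h ∈ slitPlane := Or.inl (by linarith)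
  unfold loc
  have h3 : AnalyticAt ℂ (fun s : ℂ => 1 + (s - 1 / 2 - y * I) / h) s := by fun_prop
  have h4 : AnalyticAt ℂ (fun s : ℂ => Complex.log (1 + (s - 1 / 2 - y * I) / h)) s := h3.clog h2
  exact ((analyticAt_const.mul h4).neg).cexp

lemma loc_norm {h y k : ℝ} {s : ℂ} :
    ‖loc h y k s‖ = Real.exp (-(k * Real.log ‖1 + (s - 1 / 2 - y * I) / h‖)) := by
  unfold loc
  rw [Complex.norm_exp, Complex.neg_re, Complex.re_ofReal_mul, Complex.log_re]

/-- **small values in measure on a segment of the critical line give small values to the right** -/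
theorem localM {a1 b1 κ h ρ : ℝ} (ha1 : 0 ≤ a1) (hb1 : 0 ≤ b1) (hκ : 0 < κ) (hh : 0 < h) (hh1 : h ≤ 1) (hρ : 0 < ρ)
    (hρ1 : ρ ≤ κ * h / (16 * (a1 + b1 + 1))) :
    ∃ c L0 : ℝ, 0 < c ∧ 0 < L0 ∧ ∀ (F : ℂ → ℂ) (y L : ℝ), L0 ≤ L → |y| ≤ 1 →
      (∀ s : ℂ, 1 / 2 ≤ s.re → AnalyticAt ℂ F s) →
      (∀ s : ℂ, 1 / 2 ≤ s.re → log⁺ ‖F s‖ ≤ a1 * L + b1 * Real.log (‖s‖ + 1)) →
      volume {t : ℝ | |t - y| ≤ h ∧ c * L ≤ log⁺ ‖F (1 / 2 + (t : ℂ) * I)‖} ≤ ENNReal.ofReal c →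
      ‖F (1 / 2 + ρ + y * I)‖ ≤ Real.exp (κ * L) := by
  have hpi := Real.pi_pos
  have hC0 := C0_nonneg
  obtain ⟨D, hD⟩ : ∃ D : ℝ, D = a1 + b1 + 1 := ⟨_, rfl⟩
  have hD0 : 0 < D := by linarith
  -- the exponent of the localizing factor is `4 D L`
  obtain ⟨E1, hE1⟩ : ∃ E1 : ℝ, E1 = a1 + b1 * Real.log 4 := ⟨_, rfl⟩
  have hl4 : 0 ≤ Real.log 4 := Real.log_nonneg (by norm_num)
  have hE10 : 0 ≤ E1 := by rw [hE1]; positivity
  obtain ⟨c, hc⟩ : ∃ c : ℝ, c = min (κ / 8) (κ * ρ / (8 * (E1 + 1))) := ⟨_, rfl⟩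
  have hc0 : 0 < c := by rw [hc]; positivity
  have hc1 : c ≤ κ / 8 := by rw [hc]; exact min_le_left _ _
  have hc2 : c * (E1 + 1) ≤ κ * ρ / 8 := by
    have : c ≤ κ * ρ / (8 * (E1 + 1)) := by rw [hc]; exact min_le_right _ _
    calc c * (E1 + 1) ≤ κ * ρ / (8 * (E1 + 1)) * (E1 + 1) := mul_le_mul_of_nonneg_right this (by linarith)
      _ = κ * ρ / 8 := by field_simp
  -- the far range
  obtain ⟨H, hH0, hH⟩ : ∃ H : ℝ, 0 < H ∧ E1 * C0 / Real.log (1 + H / ρ) ≤ κ := by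
    obtain ⟨lam, hlam⟩ : ∃ lam : ℝ, lam = 1 + E1 * C0 / κ := ⟨_, rfl⟩
    have hlam0 : 0 < lam := by rw [hlam]; positivity
    refine ⟨ρ * (Real.exp lam - 1), mul_pos hρ (by linarith [Real.add_one_le_exp lam]), ?_⟩
    have e : 1 + ρ * (Real.exp lam - 1) / ρ = Real.exp lam := by field_simp; ring
    rw [e, Real.log_exp, div_le_iff₀ hlam0, hlam, mul_add, mul_one, mul_div_cancel₀ _ hκ.ne']
    linarith
  refine ⟨c, max 1 (8 * (b1 * C0) / κ), hc0, lt_max_of_lt_left one_pos, ?_⟩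
  intro F y L hL hy hF hgr hvol
  have hL1 : 1 ≤ L := (le_max_left _ _).trans hL
  have hL0 : 0 < L := by linarith
  have hL2 : 8 * (b1 * C0) ≤ κ * L := by
    have : 8 * (b1 * C0) / κ ≤ L := (le_max_right _ _).trans hL
    rw [div_le_iff₀ hκ] at this
    linarith
  obtain ⟨k, hk⟩ : ∃ k : ℝ, k = 4 * D * L := ⟨_, rfl⟩
  have hk0 : 0 < k := by rw [hk]; positivity
  obtain ⟨Φ, hΦ⟩ : ∃ Φ : ℂ → ℂ, Φ = fun s => F s * loc h y k s := ⟨_, rfl⟩
  have hΦa : ∀ s : ℂ, 1 / 2 ≤ s.re → AnalyticAt ℂ Φ s := fun s hs => by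
    rw [hΦ]
    exact (hF s hs).mul (loc_an hh hs)
  have hn1 : ∀ s : ℂ, 1 / 2 ≤ s.re → 1 ≤ ‖1 + (s - 1 / 2 - y * I) / h‖ := fun s hs =>
    (loc_slit (y := y) hh hs).trans ((le_abs_self _).trans (Complex.abs_re_le_norm _))
  have hlocle : ∀ s : ℂ, 1 / 2 ≤ s.re → ‖loc h y k s‖ ≤ 1 := fun s hs => by
    rw [loc_norm]
    have h1 : 0 ≤ k * Real.log ‖1 + (s - 1 / 2 - y * I) / h‖ := mul_nonneg hk0.le (Real.log_nonneg (hn1 s hs))
    exact (Real.exp_le_exp.2 (by linarith)).trans_eq Real.exp_zero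
  have hΦle : ∀ s : ℂ, 1 / 2 ≤ s.re → ‖Φ s‖ ≤ ‖F s‖ := fun s hs => by
    rw [hΦ]
    simp only [norm_mul]
    exact mul_le_of_le_one_right (norm_nonneg _) (hlocle s hs)
  have hΦgr : ∀ s : ℂ, 1 / 2 ≤ s.re → log⁺ ‖Φ s‖ ≤ a1 * L + b1 * Real.log (‖s‖ + 1) := fun s hs =>
    (posLog_le_posLog (norm_nonneg _) (hΦle s hs)).trans (hgr s hs)
  -- far from `y` the localized function is at most one
  have hfar : ∀ t : ℝ, h < |t - y| → log⁺ ‖Φ (1 / 2 + (t : ℂ) * I)‖ = 0 := by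
    intro t ht
    have hre : (1 / 2 + (t : ℂ) * I).re = 1 / 2 := by simp
    have hns : ‖1 / 2 + (t : ℂ) * I‖ + 1 ≤ 3 / 2 + |t| := by
      have h1 := norm_add_le (1 / 2 : ℂ) ((t : ℂ) * I)
      rw [norm_mul, Complex.norm_I, mul_one, Complex.norm_real, Real.norm_eq_abs] at h1
      norm_num at h1
      linarith
    have h1 := hgr (1 / 2 + (t : ℂ) * I) (by rw [hre])
    -- the size of the factor
    have e1 : (1 : ℂ) + (1 / 2 + (t : ℂ) * I - 1 / 2 - y * I) / h = 1 + (((t - y) / h : ℝ) : ℂ) * I := by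
      push_cast
      ring
    obtain ⟨x, hx⟩ : ∃ x : ℝ, x = |t - y| / h := ⟨_, rfl⟩
    have hx1 : 1 < x := by rw [hx, lt_div_iff₀ hh]; linarith
    have h2 : (1 + x ^ 2) = ‖(1 : ℂ) + (((t - y) / h : ℝ) : ℂ) * I‖ ^ 2 := by
      rw [Complex.sq_norm, Complex.normSq_apply]
      simp
      rw [hx, div_pow, sq_abs]
      ring
    have hnn : 0 < ‖(1 : ℂ) + (((t - y) / h : ℝ) : ℂ) * I‖ := by
      have := hn1 (1 / 2 + (t : ℂ) * I) (by rw [hre])
      rw [e1] at this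
      linarith
    have h3 : Real.log (1 + x ^ 2) = 2 * Real.log ‖(1 : ℂ) + (((t - y) / h : ℝ) : ℂ) * I‖ := by
      rw [h2, Real.log_pow]
      push_cast
      ring
    -- the logarithm of the size
    have hbound : a1 * L + b1 * Real.log (3 / 2 + |t|) ≤ k * Real.log ‖(1 : ℂ) + (((t - y) / h : ℝ) : ℂ) * I‖ := by
      have h4 : k * Real.log ‖(1 : ℂ) + (((t - y) / h : ℝ) : ℂ) * I‖ = 2 * D * L * Real.log (1 + x ^ 2) := by
        rw [h3, hk]; ring
      rw [h4]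
      have hlx : 1 / 2 ≤ Real.log (1 + x ^ 2) := by
        have h5 : Real.log 2 ≤ Real.log (1 + x ^ 2) := Real.log_le_log (by norm_num) (by nlinarith)
        have := Real.log_two_gt_d9
        linarith
      have hlt : Real.log (3 / 2 + |t|) ≤ 2 * Real.log (1 + x ^ 2) := by
        have h5 : |t| ≤ x + 1 := by
          have h6 : |t - y| ≤ x := by
            rw [hx, le_div_iff₀ hh]
            calc |t - y| * h ≤ |t - y| * 1 := mul_le_mul_of_nonneg_left hh1 (abs_nonneg _)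
              _ = |t - y| := mul_one _
          calc |t| = |(t - y) + y| := by ring_nf
            _ ≤ |t - y| + |y| := abs_add_le _ _
            _ ≤ x + 1 := by linarith
        have hx2 : x ≤ x ^ 2 := by nlinarith
        have hx4 : 1 ≤ x ^ 4 := one_le_pow₀ hx1.le
        have h6 : 3 / 2 + |t| ≤ (1 + x ^ 2) ^ 2 := by
          have e2 : (1 + x ^ 2) ^ 2 = 1 + 2 * x ^ 2 + x ^ 4 := by ring
          rw [e2]
          linarith
        have h7 := Real.log_le_log (by positivity) h6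
        rw [Real.log_pow] at h7
        push_cast at h7
        exact h7
      have h5 : a1 * L ≤ 2 * a1 * L * Real.log (1 + x ^ 2) := by
        have : 0 ≤ a1 * L := by positivity
        nlinarith
      have h6 : b1 * Real.log (3 / 2 + |t|) ≤ 2 * b1 * L * Real.log (1 + x ^ 2) := by
        calc b1 * Real.log (3 / 2 + |t|) ≤ b1 * (2 * Real.log (1 + x ^ 2)) := mul_le_mul_of_nonneg_left hlt hb1
          _ = 2 * b1 * 1 * Real.log (1 + x ^ 2) := by ring
          _ ≤ 2 * b1 * L * Real.log (1 + x ^ 2) := by gcongr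
      have h7 : 0 ≤ 2 * L * Real.log (1 + x ^ 2) := by positivity
      calc a1 * L + b1 * Real.log (3 / 2 + |t|) ≤ 2 * a1 * L * Real.log (1 + x ^ 2) + 2 * b1 * L * Real.log (1 + x ^ 2) := by
            linarith
        _ ≤ 2 * a1 * L * Real.log (1 + x ^ 2) + 2 * b1 * L * Real.log (1 + x ^ 2) + 2 * L * Real.log (1 + x ^ 2) := by
            linarith
        _ = 2 * D * L * Real.log (1 + x ^ 2) := by rw [hD]; ring
    have h8 : Real.log (‖1 / 2 + (t : ℂ) * I‖ + 1) ≤ Real.log (3 / 2 + |t|) :=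
      Real.log_le_log (by positivity) hns
    have h9 : log⁺ ‖F (1 / 2 + (t : ℂ) * I)‖ ≤ k * Real.log ‖(1 : ℂ) + (((t - y) / h : ℝ) : ℂ) * I‖ := by
      have := mul_le_mul_of_nonneg_left h8 hb1
      linarith
    have h10 : ‖F (1 / 2 + (t : ℂ) * I)‖ ≤ Real.exp (k * Real.log ‖(1 : ℂ) + (((t - y) / h : ℝ) : ℂ) * I‖) := by
      rcases (norm_nonneg (F (1 / 2 + (t : ℂ) * I))).eq_or_lt with h0 | h0
      · rw [← h0]; exact (Real.exp_pos _).le
      · have h11 : Real.log ‖F (1 / 2 + (t : ℂ) * I)‖ ≤ log⁺ ‖F (1 / 2 + (t : ℂ) * I)‖ := le_max_right _ _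
        rw [← Real.log_le_iff_le_exp h0]
        linarith
    have h12 : ‖Φ (1 / 2 + (t : ℂ) * I)‖ ≤ 1 := by
      rw [hΦ]
      simp only [norm_mul]
      rw [loc_norm, e1]
      calc ‖F (1 / 2 + (t : ℂ) * I)‖ * Real.exp (-(k * Real.log ‖(1 : ℂ) + (((t - y) / h : ℝ) : ℂ) * I‖)) ≤
          Real.exp (k * Real.log ‖(1 : ℂ) + (((t - y) / h : ℝ) : ℂ) * I‖) *
            Real.exp (-(k * Real.log ‖(1 : ℂ) + (((t - y) / h : ℝ) : ℂ) * I‖)) := by gcongr
        _ = 1 := by rw [← Real.exp_add, add_neg_cancel, Real.exp_zero]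
    exact posLog_eq_zero_iff _ |>.2 (by rw [abs_of_nonneg (norm_nonneg _)]; exact h12)
  -- the mean value
  obtain ⟨m, hm⟩ : ∃ m : ℝ → ℝ, m = fun t : ℝ => log⁺ ‖Φ (1 / 2 + (t : ℂ) * I)‖ := ⟨_, rfl⟩
  have hm0 : ∀ t, 0 ≤ m t := fun t => by rw [hm]; exact posLog_nonneg
  have hmE : ∀ t : ℝ, m t ≤ E1 * L := by
    intro t
    rcases le_or_gt |t - y| h with h1 | h1
    · rw [hm]
      refine (hΦgr _ (by simp)).trans ?_
      have h2 : ‖1 / 2 + (t : ℂ) * I‖ + 1 ≤ 4 := by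
        have h3 := norm_add_le (1 / 2 : ℂ) ((t : ℂ) * I)
        rw [norm_mul, Complex.norm_I, mul_one, Complex.norm_real, Real.norm_eq_abs] at h3
        norm_num at h3
        have h4 : |t| ≤ 2 := by
          calc |t| = |(t - y) + y| := by ring_nf
            _ ≤ |t - y| + |y| := abs_add_le _ _
            _ ≤ 2 := by linarith
        linarith
      have h3 := Real.log_le_log (by positivity) h2
      rw [hE1]
      have h4 : b1 * Real.log (‖1 / 2 + (t : ℂ) * I‖ + 1) ≤ b1 * Real.log 4 * L := by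
        calc b1 * Real.log (‖1 / 2 + (t : ℂ) * I‖ + 1) ≤ b1 * Real.log 4 * 1 := by
              rw [mul_one]; exact mul_le_mul_of_nonneg_left h3 hb1
          _ ≤ b1 * Real.log 4 * L := mul_le_mul_of_nonneg_left hL1 (by positivity)
      linarith
    · rw [hm]
      simp only [hfar t h1]
      positivity
  have hmb := mean_bound (m := m) (a := ρ) (T := y) (H := H) (q := c * L) (E := E1 * L) (G := 0) (v := c)
    hρ hH0 (by positivity) (by positivity) le_rfl hc0.le (fun θ => by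
      have := hmE (y + ρ * ct θ)
      rw [zero_mul, add_zero]
      exact this) (by
      refine (measure_mono ?_).trans hvol
      rintro t ⟨ht1, ht2⟩
      have ht3 : |t - y| ≤ h := by
        by_contra hcon
        push Not at hcon
        rw [hm] at ht2
        simp only [hfar t hcon] at ht2
        have : 0 < c * L := by positivity
        linarith
      refine ⟨ht3, ht2.trans ?_⟩
      rw [hm]
      exact posLog_le_posLog (norm_nonneg _) (hΦle _ (by simp)))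
  -- the Poisson inequality
  by_cases h0 : Φ (1 / 2 + ρ + y * I) = 0
  · rw [hΦ] at h0
    have h1 : F (1 / 2 + ρ + y * I) = 0 := by
      rcases mul_eq_zero.1 h0 with h2 | h2
      · exact h2
      · exfalso
        unfold loc at h2
        exact Complex.exp_ne_zero _ h2
    rw [h1, norm_zero]
    exact (Real.exp_pos _).le
  have hP := poissonZ (F := Φ) hΦa hb1 hΦgr hρ y h0 (r := 1 / 2) (by norm_num) (by norm_num) ∅ (by simp)
  simp only [Finset.sum_empty, zero_mul, add_zero] at hP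
  have hint : ∫ θ in (0:ℝ)..2 * π, log⁺ ‖Φ (1 / 2 + ((y + ρ * ct θ : ℝ) : ℂ) * I)‖ =
      ∫ θ, m (y + ρ * ct θ) ∂νθ := by
    rw [intervalIntegral.integral_of_le (by positivity), hm]
    rfl
  rw [hint] at hP
  have hlogΦ : Real.log ‖Φ (1 / 2 + ρ + y * I)‖ = Real.log ‖F (1 / 2 + ρ + y * I)‖ - k * Real.log (1 + ρ / h) := by
    have hF0 : F (1 / 2 + ρ + y * I) ≠ 0 := by
      intro h1
      apply h0
      rw [hΦ]
      simp only [h1, zero_mul]
    rw [hΦ]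
    simp only [norm_mul]
    rw [loc_norm, Real.log_mul (norm_pos_iff.2 hF0).ne' (Real.exp_pos _).ne', Real.log_exp]
    have e : (1 : ℂ) + (1 / 2 + ρ + y * I - 1 / 2 - y * I) / h = ((1 + ρ / h : ℝ) : ℂ) := by
      push_cast; ring
    rw [e, Complex.norm_real, Real.norm_of_nonneg (by positivity)]
    ring
  have hkρ : k * Real.log (1 + ρ / h) ≤ κ / 4 * L := by
    have h1 : Real.log (1 + ρ / h) ≤ ρ / h := by
      have := Real.log_le_sub_one_of_pos (show 0 < 1 + ρ / h by positivity)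
      linarith
    have h2 : ρ / h ≤ κ / (16 * D) := by
      rw [div_le_iff₀ hh, hD]
      calc ρ ≤ κ * h / (16 * (a1 + b1 + 1)) := hρ1
        _ = κ / (16 * (a1 + b1 + 1)) * h := by ring
    calc k * Real.log (1 + ρ / h) ≤ k * (κ / (16 * D)) := mul_le_mul_of_nonneg_left (h1.trans h2) hk0.le
      _ = κ / 4 * L := by rw [hk]; field_simp; ring
  have htot : (2 * π)⁻¹ * ∫ θ, m (y + ρ * ct θ) ∂νθ ≤ 3 / 4 * (κ * L) := by
    have h1 : ∫ θ, m (y + ρ * ct θ) ∂νθ ≤ 2 * π * (κ / 8 * L) + κ / 4 * L + κ * L := by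
      refine hmb.trans ?_
      have h2 : 2 * π * (c * L) ≤ 2 * π * (κ / 8 * L) := by gcongr
      have h3 : 2 / ρ * c * (E1 * L) ≤ κ / 4 * L := by
        have h4 : c * E1 ≤ κ * ρ / 8 := by nlinarith
        calc 2 / ρ * c * (E1 * L) = 2 / ρ * (c * E1) * L := by ring
          _ ≤ 2 / ρ * (κ * ρ / 8) * L := by gcongr
          _ = κ / 4 * L := by field_simp; ring
      have h5 : (E1 * L / Real.log (1 + H / ρ) + 0) * C0 ≤ κ * L := by
        calc (E1 * L / Real.log (1 + H / ρ) + 0) * C0 = E1 * C0 / Real.log (1 + H / ρ) * L := by ring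
          _ ≤ κ * L := by gcongr
      linarith
    rw [inv_mul_le_iff₀ (by positivity)]
    have hpi3 := Real.pi_gt_three
    have hkL : 0 < κ * L := by positivity
    have h6 : 2 * π * (κ / 8 * L) + κ / 4 * L + κ * L ≤ 2 * π * (3 / 4 * (κ * L)) := by nlinarith
    linarith
  have hlogF : Real.log ‖F (1 / 2 + ρ + y * I)‖ ≤ κ * L := by
    rw [hlogΦ] at hP
    linarith
  have hF0 : 0 < ‖F (1 / 2 + ρ + y * I)‖ := by
    rw [norm_pos_iff]
    intro h1
    apply h0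
    rw [hΦ]
    simp only [h1, zero_mul]
  rwa [← Real.log_le_iff_le_exp hF0]

end Pool.Agent.V7H83.CZ
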