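import Pool.Agent.V7H83.CZ.C

/-!
# Many zeros to the right of the critical line force large geometric means
-/

set_option autoImplicit false

open MeasureTheory Filter Topology Set Real

namespace Pool.Agent.V7H83.CZ

open Pool.Agent.V7H52.GM Pool.Agent.H983R4.LH H370 H370.Loc

theorem zerosGM {ρ : Measure ℂ} [IsProbabilityMeasure ρ] {R : ℝ} (hR : 0 ≤ R) (hρ : Car ρ R)
    (hδ : ∀ δ : ℝ, 0 < δ → 0 < ρ {z : ℂ | z.re < δ}) {a0 a1 b κ a X m0 : ℝ} (ha0 : 0 ≤ a0) (ha1 : 0 ≤ a1)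
    (hb : 0 ≤ b) (hκ : 0 < κ) (ha : 0 < a) (hX : 0 ≤ X) :
    ∃ η H L0 : ℝ, 0 < η ∧ 0 < H ∧ ∀ (L : ℝ) (F : ℂ → ℂ), L0 ≤ L → Dat F (a0 + a1 * L) b →
      (∀ z : ℂ, 0 ≤ z.re → ‖z‖ ≤ R → F (1 / 2 + a + z) ≠ 0 ∧
        -(η * L + m0) ≤ Real.log ‖F (1 / 2 + a + z)‖) →
      ∀ S : Finset ℂ, (∀ s ∈ S, 1 / 2 + κ ≤ s.re ∧ ‖s‖ ≤ X) → κ * L ≤ ∑ s ∈ S, (mult F s : ℝ) →
      ∀ M : ℝ, 0 ≤ M →
        ENNReal.ofReal η ≤ volume {t : ℝ | |t| ≤ H ∧ η * L ≤ LM ρ F M t} := by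
  classical
  have hpi := Real.pi_pos
  obtain ⟨D, hD⟩ : ∃ D : ℝ, D = X + 1 + a + R := ⟨_, rfl⟩
  have hD0 : 0 < D := by rw [hD]; linarith
  obtain ⟨r, hr⟩ : ∃ r : ℝ, r = Real.sqrt (max (1 - 4 * a * (κ / 2) / D ^ 2) (1 / 4)) := ⟨_, rfl⟩
  have hrpos : 0 < max (1 - 4 * a * (κ / 2) / D ^ 2) (1 / 4) := lt_max_of_lt_right (by norm_num)
  have hr0 : 0 < r := by rw [hr]; exact Real.sqrt_pos.2 hrpos
  have hr1 : r < 1 := by
    rw [hr, Real.sqrt_lt' one_pos]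
    have : 0 < 4 * a * (κ / 2) / D ^ 2 := by positivity
    apply max_lt <;> norm_num
    linarith
  obtain ⟨Λ₁, hΛ₁⟩ : ∃ Λ₁ : ℝ, Λ₁ = Real.log (1 / r) := ⟨_, rfl⟩
  have hΛ₁0 : 0 < Λ₁ := by rw [hΛ₁]; exact Real.log_pos (by rw [lt_div_iff₀ hr0]; linarith)
  obtain ⟨p, hp⟩ : ∃ p : ℝ, p = (ρ {z : ℂ | z.re < κ / 2}).toReal := ⟨_, rfl⟩
  have hp0 : 0 < p := by rw [hp]; exact ENNReal.toReal_pos (hδ _ (by linarith)).ne' (measure_ne_top _ _)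
  obtain ⟨δ₂, hδ₂⟩ : ∃ δ₂ : ℝ, δ₂ = p * κ * Λ₁ := ⟨_, rfl⟩
  have hδ₂0 : 0 < δ₂ := by rw [hδ₂]; positivity
  obtain ⟨C₂, hC₂⟩ : ∃ C₂ : ℝ, C₂ = a0 + b * (Real.log (3 / 2 + R) + Real.log (1 + a)) := ⟨_, rfl⟩
  have hC₂0 : 0 ≤ C₂ := by
    have h1 : 0 ≤ Real.log (3 / 2 + R) := Real.log_nonneg (by linarith)
    have h2 : 0 ≤ Real.log (1 + a) := Real.log_nonneg (by linarith)
    rw [hC₂]
    positivity
  have hC0 := C0_nonneg
  obtain ⟨Λ, hΛ⟩ : ∃ Λ : ℝ, Λ = 1 + 8 * (a1 * C0) / (2 * π * δ₂) := ⟨_, rfl⟩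
  have hΛ0 : 0 < Λ := by rw [hΛ]; positivity
  have hΛbd : a1 * C0 / (2 * π * Λ) ≤ δ₂ / 8 := by
    rw [div_le_iff₀ (by positivity)]
    have : δ₂ / 8 * (2 * π * Λ) = δ₂ / 8 * (2 * π) + a1 * C0 := by
      rw [hΛ]
      field_simp
    rw [this]
    have : 0 ≤ δ₂ / 8 * (2 * π) := by positivity
    linarith
  obtain ⟨H, hH⟩ : ∃ H : ℝ, H = a * (Real.exp Λ - 1) := ⟨_, rfl⟩
  have hH0 : 0 < H := by
    have : 1 < Real.exp Λ := Real.one_lt_exp_iff.2 hΛ0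
    rw [hH]
    exact mul_pos ha (by linarith)
  have hHΛ : Real.log (1 + H / a) = Λ := by
    have : 1 + H / a = Real.exp Λ := by rw [hH]; field_simp; ring
    rw [this, Real.log_exp]
  obtain ⟨η, hη⟩ : ∃ η : ℝ, η = δ₂ / (4 * (2 + a1 / (π * a))) := ⟨_, rfl⟩
  have hη0 : 0 < η := by rw [hη]; positivity
  have hηbd : 2 * η + η * a1 / (π * a) = δ₂ / 4 := by
    rw [hη]
    have : 0 < 2 + a1 / (π * a) := by positivity
    field_simp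
  obtain ⟨K, hK⟩ : ∃ K : ℝ, K = η * C₂ / (π * a) + (C₂ / Λ + b) * C0 / (2 * π) + m0 := ⟨_, rfl⟩
  refine ⟨η, H, max 0 (2 * |K| / δ₂ + 1), hη0, hH0, ?_⟩
  intro L F hL Hd hpt S hS hScard M hM
  have hL0 : 0 ≤ L := (le_max_left _ _).trans hL
  have hTL : 2 * |K| / δ₂ + 1 ≤ L := (le_max_right _ _).trans hL
  by_contra hcon
  push Not at hcon
  obtain ⟨E, hE⟩ : ∃ E : ℝ, E = C₂ + a1 * L := ⟨_, rfl⟩
  have hE0 : 0 ≤ E := by rw [hE]; positivity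
  have hmb := mean_bound (m := LM ρ F M) (a := a) (T := 0) (H := H) (q := η * L) (E := E)
    (G := b) (v := η) ha hH0 (by positivity) hE0 hb hη0.le (by
      intro θ
      refine (Hd.LM_le hρ hM _).trans ?_
      have h1 := log_ct (T := 0) ha hR θ
      rw [abs_zero, add_zero] at h1
      have h4 := mul_le_mul_of_nonneg_left h1 Hd.hB
      rw [hE, hC₂]
      linarith) (by simpa using hcon.le)
  rw [hHΛ] at hmb
  have hS' : ∀ z : ℂ, 0 ≤ z.re → ‖z‖ ≤ R → z.re < κ / 2 → ∀ s ∈ S,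
      1 / 2 < (s - z).re ∧ ‖Pinv a 0 (s - z)‖ ≤ r := by
    intro z hz hzR hzη s hs
    obtain ⟨h1, h2⟩ := hS s hs
    have h4 : 1 / 2 + κ / 2 ≤ (s - z).re := by rw [Complex.sub_re]; linarith
    refine ⟨by linarith, ?_⟩
    have h5 : ‖(s - z) - 1 / 2 - (0 : ℝ) * Complex.I + a‖ ≤ D := by
      have e : (s - z) - 1 / 2 - (0 : ℝ) * Complex.I + a = s + (-(1 / 2) + a - z) := by
        push_cast
        ring
      rw [e]
      refine (norm_add_le _ _).trans ?_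
      have h6 : ‖(-(1 / 2) + a - z : ℂ)‖ ≤ 1 / 2 + a + R := by
        refine (norm_sub_le _ _).trans ?_
        have h7 := norm_add_le (-(1 / 2) : ℂ) a
        rw [norm_neg, Complex.norm_real, Real.norm_of_nonneg ha.le] at h7
        norm_num at h7
        linarith
      rw [hD]
      linarith
    have h6 := Pinv_norm (t := 0) (s := s - z) ha (show 0 < κ / 2 by linarith) h4 h5
    have h7 : ‖Pinv a 0 (s - z)‖ ^ 2 ≤ r ^ 2 := by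
      rw [hr, Real.sq_sqrt hrpos.le]
      exact h6.trans (le_max_left _ _)
    exact (sq_le_sq₀ (norm_nonneg _) hr0.le).1 h7
  have hint := integrated Hd hρ hR ha hM 0 (l := -(η * L + m0)) (δ := κ / 2) (fun z hz hzR => by
    have h1 := hpt z hz hzR
    have e : (1 / 2 + a + (0 : ℝ) * Complex.I + z : ℂ) = 1 / 2 + a + z := by push_cast; ring
    rw [e]
    exact h1) hr0 hr1 S hS'
  have hN2 : δ₂ * L ≤ p * ((∑ s ∈ S, (mult F s : ℝ)) * Λ₁) := by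
    have : δ₂ * L = p * ((κ * L) * Λ₁) := by rw [hδ₂]; ring
    rw [this]
    gcongr
  rw [← hp, ← hΛ₁] at hint
  have h1 : -(η * L + m0) + δ₂ * L ≤
      (2 * π)⁻¹ * (2 * π * (η * L) + 2 / a * η * E + (E / Λ + b) * C0) := by
    have h2 : (2 * π)⁻¹ * (∫ θ, LM ρ F M (0 + a * ct θ) ∂νθ) ≤
      (2 * π)⁻¹ * (2 * π * (η * L) + 2 / a * η * E + (E / Λ + b) * C0) :=
      mul_le_mul_of_nonneg_left hmb (by positivity)
    linarith
  have e : (2 * π)⁻¹ * (2 * π * (η * L) + 2 / a * η * E + (E / Λ + b) * C0) =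
      η * L + η * C₂ / (π * a) + η * a1 / (π * a) * L + (C₂ / Λ + b) * C0 / (2 * π) +
        a1 * C0 / (2 * π * Λ) * L := by
    rw [hE]
    field_simp
    ring
  rw [e] at h1
  have h3 : a1 * C0 / (2 * π * Λ) * L ≤ δ₂ / 8 * L := mul_le_mul_of_nonneg_right hΛbd hL0
  have h4 : (2 * η + η * a1 / (π * a)) * L = δ₂ / 4 * L := by rw [hηbd]
  have h5 : δ₂ * L ≤ K + δ₂ / 4 * L + δ₂ / 8 * L := by
    rw [hK]
    linarith
  have h6 : 2 * |K| + δ₂ ≤ L * δ₂ := by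
    have h7 : (2 * |K| / δ₂ + 1) * δ₂ ≤ L * δ₂ := mul_le_mul_of_nonneg_right hTL hδ₂0.le
    have h8 : (2 * |K| / δ₂ + 1) * δ₂ = 2 * |K| + δ₂ := by field_simp
    linarith
  have h7 := le_abs_self K
  have h8 : 0 ≤ |K| := abs_nonneg K
  nlinarith

end Pool.Agent.V7H83.CZ
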