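import Pool.Agent.V7H83.CZ.D
import Pool.Agent.V7H89.GL.Line
import Pool.Agent.V7H89.GL.Lind

/-!
# Growth of the L-functions, uniformly in the conductor
-/

set_option autoImplicit false

open Complex Set MeasureTheory Filter Topology
open scoped ComplexConjugate

namespace Pool.Agent.V7H83.CZ

open Pool.Agent.W169.HF H353.E H353.F Pool.Agent.V7H89.GL H370 H370.Loc Real

variable {m : ℕ}

/-- the conductor at other heights -/
lemma cq_log {N : ℝ} (hN : 1 ≤ N) (μ : Fin m → ℂ) (y v : ℝ) :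
    Real.log (cq N μ (y + v)) ≤ Real.log (cq N μ y) + m * Real.log (1 + |v|) := by
  have hN0 : 0 < N := by linarith
  have h0 : ∀ y, 0 < cq N μ y := fun y => lt_of_lt_of_le hN0 (le_cq hN μ y)
  have hv : 0 < 1 + |v| := by linarith [abs_nonneg v]
  have h1 : cq N μ (y + v) ≤ cq N μ y * (1 + |v|) ^ m := by
    unfold cq
    rw [mul_assoc]
    apply mul_le_mul_of_nonneg_left _ hN0.le
    calc ∏ j, (1 + ‖1 / 2 + ((y + v : ℝ) : ℂ) * I - μ j‖) ≤
          ∏ j, ((1 + ‖1 / 2 + (y : ℂ) * I - μ j‖) * (1 + |v|)) := by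
          apply Finset.prod_le_prod (fun j _ => by positivity) fun j _ => ?_
          have e : 1 / 2 + ((y + v : ℝ) : ℂ) * I - μ j = (1 / 2 + (y : ℂ) * I - μ j) + (v : ℂ) * I := by push_cast; ring
          rw [e]
          have h2 := norm_add_le (1 / 2 + (y : ℂ) * I - μ j) ((v : ℂ) * I)
          rw [norm_mul, Complex.norm_I, mul_one, Complex.norm_real, Real.norm_eq_abs] at h2
          have h4 := norm_nonneg (1 / 2 + (y : ℂ) * I - μ j)
          have h5 := abs_nonneg v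
          nlinarith
      _ = _ := by
          rw [Finset.prod_mul_distrib, Finset.prod_const, Finset.card_univ, Fintype.card_fin]
  have h2 := Real.log_le_log (h0 _) h1
  rwa [Real.log_mul (h0 y).ne' (pow_pos hv m).ne', Real.log_pow] at h2

lemma pl {x E : ℝ} (hx : 0 ≤ x) (h : x ≤ Real.exp E) : log⁺ x ≤ max 0 E := by
  have h1 := Real.posLog_le_posLog hx h
  have h2 : log⁺ (Real.exp E) = max 0 E := by
    have : log⁺ (Real.exp E) = max 0 (Real.log (Real.exp E)) := rfl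
    rw [this, Real.log_exp]
  rwa [h2] at h1

/-- the L-function is nonzero where the completed one is -/
lemma base2 (hm : 1 ≤ m) {θ : ℝ} (hθ0 : 0 ≤ θ) (hθ : θ < 1 / 2) : ∃ B : ℝ, 1 ≤ B ∧
    ∀ (N : ℝ) (μ : Fin m → ℂ) (α : Fin m → ℕ → ℂ) (ε : ℂ) (Λ : ℂ → ℂ), Dat θ N μ α ε Λ →
      ∀ s : ℂ, 1 + θ + 1 / 2 ≤ s.re → ‖LL N μ Λ s‖ ≤ B ∧ B⁻¹ ≤ ‖LL N μ Λ s‖ := by
  obtain ⟨B, hB, HS⟩ := sharpX m hm hθ0 hθ.le (η := 1 / 2) (by norm_num) (by norm_num)
  obtain ⟨K, hK, HB⟩ := base hm hθ0 hθ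
  refine ⟨B, hB, ?_⟩
  intro N μ α ε Λ D s hs
  obtain ⟨S, -⟩ := HS N μ α ε Λ D.d
  obtain ⟨-, -, HU⟩ := HB N μ α ε Λ D
  obtain ⟨hud, hgam, -⟩ := HU s.im
  have e : (1 / 2 + s.im * I + ((s.re - 1 / 2 : ℝ) : ℂ) : ℂ) = s := by
    apply Complex.ext <;> simp
  obtain ⟨hg, -⟩ := hgam ((s.re - 1 / 2 : ℝ) : ℂ) (by rw [Complex.ofReal_re]; linarith)
  rw [e] at hg
  have hG := hud.hG
  have hpos : 0 < ‖gaf N μ s‖ := lt_of_lt_of_le (by positivity) hg
  have h1 := S.hi s hs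
  have h2 := S.lo s hs
  have hB0 : 0 < B := by linarith
  have e2 : ‖LL N μ Λ s‖ = ‖XX N Λ s‖ / ‖gaf N μ s‖ := by
    unfold LL
    rw [norm_mul, norm_inv, div_eq_mul_inv]
  rw [e2]
  refine ⟨by rwa [div_le_iff₀ hpos], ?_⟩
  rw [le_div_iff₀ hpos, inv_mul_le_iff₀ hB0]
  exact h2

/-- growth -/
theorem growth (hm : 1 ≤ m) {θ : ℝ} (hθ0 : 0 ≤ θ) (hθ : θ < 1 / 2) : ∃ A : ℝ, 1 ≤ A ∧
    ∀ (N : ℝ) (μ : Fin m → ℂ) (α : Fin m → ℕ → ℂ) (ε : ℂ) (Λ : ℂ → ℂ), Dat θ N μ α ε Λ →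
      Differentiable ℂ (LL N μ Λ) ∧ (∀ T : ℝ, 1 ≤ cq N μ T) ∧
      (∀ (T : ℝ) (s : ℂ), 1 / 2 ≤ s.re →
        log⁺ ‖LL N μ Λ (s + T * I)‖ ≤ A + Real.log (cq N μ T) + m * Real.log (‖s‖ + 1)) ∧
      (∀ s : ℂ, 2 ≤ s.re → LL N μ Λ s ≠ 0 ∧ -A ≤ Real.log ‖LL N μ Λ s‖) := by
  have hm' : (1 : ℝ) ≤ m := by exact_mod_cast hm
  obtain ⟨B, hB, H2⟩ := base2 hm hθ0 hθ
  obtain ⟨K, hK, HB⟩ := base hm hθ0 hθ
  have hlB : 0 ≤ Real.log B := Real.log_nonneg hB
  refine ⟨12 * m + 10 * K + Real.log B, by linarith, ?_⟩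
  intro N μ α ε Λ D
  obtain ⟨hCl, -, HU⟩ := HB N μ α ε Λ D
  have hN := D.d.one_le
  have hc1 : ∀ T : ℝ, 1 ≤ cq N μ T := fun T => (HU T).2.2.2.2.1
  have hd : Differentiable ℂ (LL N μ Λ) := LL_diff hN hCl.slow.1
  refine ⟨hd, hc1, ?_, ?_⟩
  · intro T s hs
    have hlc : 0 ≤ Real.log (cq N μ T) := Real.log_nonneg (hc1 T)
    have hls : 0 ≤ Real.log (‖s‖ + 1) := Real.log_nonneg (by linarith [norm_nonneg s])
    have hmls : 0 ≤ m * Real.log (‖s‖ + 1) := by positivity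
    rcases le_or_gt (1 + θ + 1 / 2) s.re with h | h
    · have h1 : 1 + θ + 1 / 2 ≤ (s + T * I).re := by simpa using h
      have h3 := (H2 N μ α ε Λ D _ h1).1
      have h4 : log⁺ ‖LL N μ Λ (s + T * I)‖ ≤ max 0 (Real.log B) :=
        pl (norm_nonneg _) (by rwa [Real.exp_log (by linarith)])
      rw [max_eq_right hlB] at h4
      linarith
    · obtain ⟨hud, hgam, hl1, hl2, -, -⟩ := HU (T + s.im)
      have hG := hud.hG
      obtain ⟨r, hr⟩ : ∃ r : ℝ, r = s.re - 1 / 2 := ⟨_, rfl⟩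
      have hr0 : 0 ≤ r := by linarith
      have hr1 : r ≤ 1 + θ := by linarith
      have e : (1 / 2 + ((T + s.im : ℝ) : ℂ) * I + (r : ℂ) : ℂ) = s + T * I := by
        rw [hr]
        apply Complex.ext
        · simp
        · simp; ring
      have hre : (r : ℂ).re = r := Complex.ofReal_re r
      have hnr : ‖(r : ℂ)‖ = r := by rw [Complex.norm_real, Real.norm_of_nonneg hr0]
      have hup := hud.up (r : ℂ)
      rw [hre, hnr, abs_of_nonneg hr0, max_eq_right hr1] at hup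
      have hg := (hgam (r : ℂ) (by rw [hre]; exact hr0)).1
      have h5 := LL_norm hG hg hup
      rw [e, hre, hnr] at h5
      obtain ⟨ℓ, hℓ⟩ : ∃ ℓ : ℝ, ℓ = el N μ (T + s.im) := ⟨_, rfl⟩
      rw [← hℓ] at h5 hl1 hl2
      have h6 := cq_log hN μ T s.im
      have h7 : |s.im| ≤ ‖s‖ := Complex.abs_im_le_norm s
      have h8 : Real.log (1 + |s.im|) ≤ Real.log (‖s‖ + 1) :=
        Real.log_le_log (by linarith [abs_nonneg s.im]) (by linarith)
      have h9 : m * Real.log (1 + |s.im|) ≤ m * Real.log (‖s‖ + 1) := by gcongr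
      have h10 : log⁺ ‖LL N μ Λ (s + T * I)‖ ≤
          max 0 (ℓ * (1 + θ) + K * (1 + r ^ 2) - ℓ * r + K * (1 + r ^ 2)) := pl (norm_nonneg _) h5
      refine h10.trans (max_le (by linarith) ?_)
      have hr4 : r ^ 2 ≤ 4 := by nlinarith
      have h11 : K * (1 + r ^ 2) ≤ 5 * K := by nlinarith
      obtain ⟨x, hx⟩ : ∃ x : ℝ, x = 1 + θ - r := ⟨_, rfl⟩
      have hx0 : 0 ≤ x := by linarith
      have hx1 : x ≤ 3 / 2 := by linarith
      have h12 : ℓ * x ≤ (Real.log (cq N μ (T + s.im)) + 15 * m) / 2 * x := by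
        apply mul_le_mul_of_nonneg_right _ hx0
        linarith
      have h13 : 0 ≤ Real.log (cq N μ (T + s.im)) + 15 * m := by
        have := Real.log_nonneg (hc1 (T + s.im))
        positivity
      have h14 : (Real.log (cq N μ (T + s.im)) + 15 * m) / 2 * x ≤ (Real.log (cq N μ (T + s.im)) + 15 * m) / 2 * (3 / 2) :=
        mul_le_mul_of_nonneg_left hx1 (by linarith)
      have e3 : ℓ * (1 + θ) + K * (1 + r ^ 2) - ℓ * r + K * (1 + r ^ 2) = ℓ * x + 2 * (K * (1 + r ^ 2)) := by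
        rw [hx]; ring
      rw [e3]
      linarith
  · intro s hs
    obtain ⟨-, h2⟩ := H2 N μ α ε Λ D s (by linarith)
    have hB0 : 0 < B := by linarith
    have h3 : 0 < ‖LL N μ Λ s‖ := lt_of_lt_of_le (by positivity) h2
    refine ⟨norm_pos_iff.1 h3, ?_⟩
    have h4 := Real.log_le_log (by positivity) h2
    rw [Real.log_inv] at h4
    linarith

end Pool.Agent.V7H83.CZ
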