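import Pool.Agent.V7H83.CZ.E
import Pool.Agent.V7H89.GL.Law

/-!
# A large value forces many zeros in a thin box and large values on a set of positive measure
-/

set_option autoImplicit false

open Complex Set MeasureTheory Filter Topology
open scoped ComplexConjugate

namespace Pool.Agent.V7H83.CZ

open Pool.Agent.W169.HF H353.E H353.F Pool.Agent.V7H89.GL H370 H370.Loc Real

variable {m : ℕ}

/-- **many zeros** -/
theorem zerosLL (hm : 1 ≤ m) {θ : ℝ} (hθ0 : 0 ≤ θ) (hθ : θ < 1 / 2) {κ h : ℝ} (hκ : 0 < κ) (hh : 0 < h) :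
    ∃ c Q0 : ℝ, 0 < c ∧ 1 < Q0 ∧ ∀ (N : ℝ) (μ : Fin m → ℂ) (α : Fin m → ℕ → ℂ) (ε : ℂ) (Λ : ℂ → ℂ),
      Dat θ N μ α ε Λ → ∀ T : ℝ, Q0 ≤ cq N μ T → cq N μ T ^ κ ≤ ‖LL N μ Λ (1 / 2 + T * I)‖ →
      ∃ S : Finset ℂ, (∀ s ∈ S, LL N μ Λ s = 0 ∧ 1 / 2 + c ≤ s.re ∧ |s.im - T| ≤ h) ∧
        c * Real.log (cq N μ T) ≤ ∑ s ∈ S, (mult (LL N μ Λ) s : ℝ) := by
  classical
  have hm' : (1 : ℝ) ≤ m := by exact_mod_cast hm
  obtain ⟨K, hK, HB⟩ := base hm hθ0 hθ
  obtain ⟨c, ℓ0, hc, hℓ0, HM⟩ := manyUD (K := K) (ϑ0 := 1 + θ) (κ := κ) (h := h) hK (by linarith) (by linarith) hκ hh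
  refine ⟨c / 4, Real.exp (max (30 * m) (max (2 * ℓ0 + 15 * m) ((30 * m * κ + 2 * K) / κ))), by positivity, ?_, ?_⟩
  · apply Real.one_lt_exp_iff.2
    have := le_max_left (30 * (m : ℝ)) (max (2 * ℓ0 + 15 * m) ((30 * m * κ + 2 * K) / κ))
    linarith
  intro N μ α ε Λ D T hQ hbig
  obtain ⟨hCl, -, HU⟩ := HB N μ α ε Λ D
  have hN := D.d.one_le
  obtain ⟨hud, hgam, hl1, hl2, hc1, -⟩ := HU T
  obtain ⟨L, hL⟩ : ∃ L : ℝ, L = Real.log (cq N μ T) := ⟨_, rfl⟩
  obtain ⟨ℓ, hℓ⟩ : ∃ ℓ : ℝ, ℓ = el N μ T := ⟨_, rfl⟩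
  rw [← hL] at hl1 hl2 ⊢
  rw [← hℓ] at hl1 hl2 hud hgam
  have hLge : max (30 * (m : ℝ)) (max (2 * ℓ0 + 15 * m) ((30 * m * κ + 2 * K) / κ)) ≤ L := by
    have := Real.log_le_log (Real.exp_pos _) hQ
    rwa [Real.log_exp, ← hL] at this
  have hLa : 30 * (m : ℝ) ≤ L := (le_max_left _ _).trans hLge
  have hLb : 2 * ℓ0 + 15 * m ≤ L := ((le_max_left _ _).trans (le_max_right _ _)).trans hLge
  have hLc : (30 * m * κ + 2 * K) / κ ≤ L := ((le_max_right _ _).trans (le_max_right _ _)).trans hLge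
  have hL0 : 0 < L := by linarith
  have hκL : 30 * m * κ + 2 * K ≤ κ * L := by
    rw [div_le_iff₀ hκ] at hLc
    linarith
  have hG := hud.hG
  have hff0 : ff N Λ T 0 = XX N Λ (1 / 2 + T * I) := by unfold ff; rw [add_zero]
  have hg0 := (hgam 0 (by simp)).1
  simp only [Complex.zero_re, mul_zero, norm_zero, add_zero, zero_sub, ne_eq, OfNat.ofNat_ne_zero,
    not_false_eq_true, zero_pow, mul_one] at hg0
  have hgpos : 0 < ‖gaf N μ (1 / 2 + T * I)‖ := lt_of_lt_of_le (by positivity) hg0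
  have hLLn : ‖LL N μ Λ (1 / 2 + T * I)‖ * ‖gaf N μ (1 / 2 + T * I)‖ = ‖ff N Λ T 0‖ := by
    rw [hff0]
    unfold LL
    rw [norm_mul, norm_inv, mul_assoc, inv_mul_cancel₀ hgpos.ne', mul_one]
  have hexp : cq N μ T ^ κ = Real.exp (κ * L) := by
    rw [Real.rpow_def_of_pos (by linarith), hL, mul_comm]
  rw [hexp] at hbig
  have hbig2 : GG θ N μ T * Real.exp (κ * ℓ) ≤ ‖ff N Λ T 0‖ := by
    rw [← hLLn]
    calc GG θ N μ T * Real.exp (κ * ℓ) ≤ GG θ N μ T * (Real.exp (κ * L) * Real.exp (-K)) := by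
          apply mul_le_mul_of_nonneg_left _ hG.le
          rw [← Real.exp_add]
          apply Real.exp_le_exp.2
          have : κ * (2 * ℓ) ≤ κ * (L + 15 * m) := mul_le_mul_of_nonneg_left hl2 hκ.le
          nlinarith
      _ = Real.exp (κ * L) * (GG θ N μ T * Real.exp (-K)) := by ring
      _ ≤ _ := mul_le_mul hbig hg0 (by positivity) (norm_nonneg _)
  obtain ⟨S, hS, hSc⟩ := HM ℓ (GG θ N μ T) (ff N Λ T) (by linarith) hud hbig2
  refine ⟨S.image (fun u => 1 / 2 + T * I + u), ?_, ?_⟩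
  · intro s hs
    obtain ⟨u, hu, rfl⟩ := Finset.mem_image.1 hs
    obtain ⟨h1, h2, h3⟩ := hS u hu
    have e1 : (1 / 2 + T * I + u).re = 1 / 2 + u.re := by simp
    have e2 : (1 / 2 + T * I + u).im - T = u.im := by simp
    refine ⟨?_, ?_, ?_⟩
    · unfold LL
      have : XX N Λ (1 / 2 + T * I + u) = 0 := h1
      rw [this, zero_mul]
    · rw [e1]
      linarith
    · rw [e2]
      exact h3
  · rw [Finset.sum_image (fun u _ v _ huv => add_left_cancel huv)]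
    have h4 : ∑ u ∈ S, (mult (LL N μ Λ) (1 / 2 + T * I + u) : ℝ) = ∑ u ∈ S, (mult (ff N Λ T) u : ℝ) := by
      refine Finset.sum_congr rfl fun u hu => ?_
      obtain ⟨h1, h2, h3⟩ := hS u hu
      congr 1
      have hu0 : 0 ≤ u.re := by linarith
      have hgne : gaf N μ (1 / 2 + T * I + u) ≠ 0 :=
        norm_pos_iff.1 (lt_of_lt_of_le (by positivity) (hgam u hu0).1)
      have hda : Differentiable ℂ (fun s : ℂ => (gaf N μ s)⁻¹) := by
        have hN0 : (N : ℂ) ≠ 0 := by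
          have : N ≠ 0 := by linarith
          exact_mod_cast this
        have e : (fun s : ℂ => (gaf N μ s)⁻¹) =
            fun s : ℂ => (N : ℂ) ^ (-(s / 2)) * ∏ j, (Gammaℝ (s - μ j))⁻¹ := by
          funext s
          unfold gaf
          rw [mul_inv, Finset.prod_inv_distrib, Complex.cpow_neg]
        rw [e]
        refine Differentiable.mul (fun z => ?_) ?_
        · exact ((((hasDerivAt_id z).div_const 2).neg).const_cpow (c := (N : ℂ))
            (Or.inl hN0)).differentiableAt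
        · refine Differentiable.fun_finsetProd fun j _ => ?_
          exact differentiable_Gammaℝ_inv.comp (differentiable_id.sub_const _)
      have h5 := mult_mul_ne (f := XX N Λ) (g := fun s => (gaf N μ s)⁻¹) (u := 1 / 2 + T * I + u)
        (hCl.slow.1.analyticAt _) (hda.analyticAt _) (inv_ne_zero hgne)
      have h6 : mult (LL N μ Λ) (1 / 2 + T * I + u) = mult (XX N Λ) (1 / 2 + T * I + u) := h5
      rw [h6]
      have h7 := ord_shift (XX N Λ) (1 / 2 + T * I) u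
      exact h7.symm
    rw [h4]
    refine le_trans ?_ hSc
    have : L / 4 ≤ ℓ := by linarith
    nlinarith

/-- **large values in measure** -/
theorem largeLL (hm : 1 ≤ m) {θ : ℝ} (hθ0 : 0 ≤ θ) (hθ : θ < 1 / 2) {κ h : ℝ} (hκ : 0 < κ) (hh : 0 < h) :
    ∃ c Q0 : ℝ, 0 < c ∧ 1 < Q0 ∧ ∀ (N : ℝ) (μ : Fin m → ℂ) (α : Fin m → ℕ → ℂ) (ε : ℂ) (Λ : ℂ → ℂ),
      Dat θ N μ α ε Λ → ∀ T : ℝ, Q0 ≤ cq N μ T → cq N μ T ^ κ ≤ ‖LL N μ Λ (1 / 2 + T * I)‖ →
      ENNReal.ofReal c ≤ volume {t : ℝ | |t - T| ≤ h ∧ cq N μ T ^ c ≤ ‖LL N μ Λ (1 / 2 + t * I)‖} := by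
  have hm' : (1 : ℝ) ≤ m := by exact_mod_cast hm
  obtain ⟨K, hK, HB⟩ := base hm hθ0 hθ
  obtain ⟨A, hA, HG⟩ := growth hm hθ0 hθ
  obtain ⟨h2, hh2⟩ : ∃ h2 : ℝ, h2 = min (h / 2) (1 / 2) := ⟨_, rfl⟩
  have hh20 : 0 < h2 := by rw [hh2]; positivity
  have hh2h : h2 ≤ h / 2 := by rw [hh2]; exact min_le_left _ _
  have hh21 : h2 ≤ 1 / 2 := by rw [hh2]; exact min_le_right _ _
  obtain ⟨ρ0, hρ0, hρ01, HP⟩ := pushUD (K := K) (ϑ0 := 1 + θ) (κ := κ) (h2 := h2) hK (by linarith) (by linarith)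
    hκ hh20 hh21
  obtain ⟨κ1, hκ1⟩ : ∃ κ1 : ℝ, κ1 = min (κ / 16) 1 := ⟨_, rfl⟩
  have hκ10 : 0 < κ1 := by rw [hκ1]; positivity
  have hκ1a : κ1 ≤ κ / 16 := by rw [hκ1]; exact min_le_left _ _
  obtain ⟨ρ, hρd⟩ : ∃ ρ : ℝ, ρ = min (min ρ0 (κ / 16)) (κ1 * h2 / (16 * (2 + m + 1))) := ⟨_, rfl⟩
  have hρ : 0 < ρ := by rw [hρd]; positivity
  have hρa : ρ ≤ ρ0 := by rw [hρd]; exact (min_le_left _ _).trans (min_le_left _ _)
  have hρb : ρ ≤ κ / 16 := by rw [hρd]; exact (min_le_left _ _).trans (min_le_right _ _)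
  have hρc : ρ ≤ κ1 * h2 / (16 * (2 + m + 1)) := by rw [hρd]; exact min_le_right _ _
  obtain ⟨c, L0, hc, hL0, HL⟩ := localM (a1 := 2) (b1 := m) (κ := κ1) (h := h2) (ρ := ρ) (by norm_num) (by positivity)
    hκ10 hh20 (by linarith) hρ hρc
  obtain ⟨X, hX⟩ : ∃ X : ℝ, X = max (max (30 * (m : ℝ)) A) (max L0 (max (36 * K + 15 * m) ((100 * m * (κ + 1) + 100 * K) / κ))) :=
    ⟨_, rfl⟩
  refine ⟨min c 1 / 2, Real.exp X, by positivity, ?_, ?_⟩
  · apply Real.one_lt_exp_iff.2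
    have : 30 * (m : ℝ) ≤ X := by rw [hX]; exact (le_max_left _ _).trans (le_max_left _ _)
    linarith
  intro N μ α ε Λ D T hQ hbig
  obtain ⟨hCl, -, HU⟩ := HB N μ α ε Λ D
  obtain ⟨hdif, hcq1, hgr, -⟩ := HG N μ α ε Λ D
  have hN := D.d.one_le
  obtain ⟨hud, hgam, hl1, hl2, hc1, -⟩ := HU T
  obtain ⟨L, hL⟩ : ∃ L : ℝ, L = Real.log (cq N μ T) := ⟨_, rfl⟩
  obtain ⟨ℓ, hℓ⟩ : ∃ ℓ : ℝ, ℓ = el N μ T := ⟨_, rfl⟩
  rw [← hL] at hl1 hl2
  rw [← hℓ] at hl1 hl2 hud hgam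
  have hLge : X ≤ L := by
    have := Real.log_le_log (Real.exp_pos _) hQ
    rwa [Real.log_exp, ← hL] at this
  rw [hX] at hLge
  have hLa : 30 * (m : ℝ) ≤ L := ((le_max_left _ _).trans (le_max_left _ _)).trans hLge
  have hLA : A ≤ L := ((le_max_right _ _).trans (le_max_left _ _)).trans hLge
  have hLb : L0 ≤ L := ((le_max_left _ _).trans (le_max_right _ _)).trans hLge
  have hLc : 36 * K + 15 * m ≤ L :=
    ((le_max_left _ _).trans ((le_max_right _ _).trans (le_max_right _ _))).trans hLge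
  have hLd : (100 * m * (κ + 1) + 100 * K) / κ ≤ L :=
    ((le_max_right _ _).trans ((le_max_right _ _).trans (le_max_right _ _))).trans hLge
  have hL0' : 0 < L := by linarith
  have hκL : 100 * m * (κ + 1) + 100 * K ≤ κ * L := by
    rw [div_le_iff₀ hκ] at hLd
    linarith
  have hG := hud.hG
  by_contra hcon
  push Not at hcon
  -- the values to the right
  have hval : ∀ y : ℝ, |y| ≤ h2 → ‖LL N μ Λ (1 / 2 + T * I + ((ρ : ℂ) + y * I))‖ ≤ Real.exp (κ1 * L) := by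
    intro y hy
    have h3 := HL (fun s => LL N μ Λ (s + T * I)) y L hLb (by linarith) (fun s _ => by
      have hd2 : Differentiable ℂ (fun s => LL N μ Λ (s + T * I)) := hdif.comp (differentiable_id.add_const _)
      exact hd2.analyticAt s) (fun s hs => by
      refine (hgr T s hs).trans ?_
      rw [← hL]
      linarith) (by
      have hsh := measure_preimage_add_right (volume : Measure ℝ) T
        {t : ℝ | |t - T| ≤ h ∧ cq N μ T ^ (min c 1 / 2) ≤ ‖LL N μ Λ (1 / 2 + t * I)‖}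
      refine le_trans (le_trans (measure_mono ?_) hsh.le) (hcon.le.trans (ENNReal.ofReal_le_ofReal ?_))
      · rintro t ⟨ht1, ht2⟩
        show |t + T - T| ≤ h ∧ cq N μ T ^ (min c 1 / 2) ≤ ‖LL N μ Λ (1 / 2 + ((t + T : ℝ) : ℂ) * I)‖
        refine ⟨?_, ?_⟩
        · rw [add_sub_cancel_right]
          have : |t| ≤ |t - y| + |y| := by
            have := abs_add_le (t - y) y
            rwa [sub_add_cancel] at this
          linarith
        · have e : (1 / 2 + ((t + T : ℝ) : ℂ) * I) = 1 / 2 + (t : ℂ) * I + T * I := by push_cast; ring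
          rw [e]
          have h5 : 0 < c * L := by positivity
          have h6 : 0 < log⁺ ‖LL N μ Λ (1 / 2 + (t : ℂ) * I + T * I)‖ := lt_of_lt_of_le h5 ht2
          have h7 : log⁺ ‖LL N μ Λ (1 / 2 + (t : ℂ) * I + T * I)‖ =
              Real.log ‖LL N μ Λ (1 / 2 + (t : ℂ) * I + T * I)‖ := by
            have h8 : log⁺ ‖LL N μ Λ (1 / 2 + (t : ℂ) * I + T * I)‖ =
              max 0 (Real.log ‖LL N μ Λ (1 / 2 + (t : ℂ) * I + T * I)‖) := rfl
            rw [h8] at h6 ⊢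
            rcases lt_max_iff.1 h6 with h9 | h9
            · exact absurd h9 (lt_irrefl _)
            · exact max_eq_right h9.le
          have h9 : c * L ≤ Real.log ‖LL N μ Λ (1 / 2 + (t : ℂ) * I + T * I)‖ := by
            rw [← h7]; exact ht2
          have h10 : 0 < ‖LL N μ Λ (1 / 2 + (t : ℂ) * I + T * I)‖ := by
            rcases (norm_nonneg (LL N μ Λ (1 / 2 + (t : ℂ) * I + T * I))).eq_or_lt with h11 | h11
            · rw [← h11, Real.log_zero] at h9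
              linarith
            · exact h11
          rw [Real.rpow_def_of_pos (by linarith), ← hL]
          refine le_trans (Real.exp_le_exp.2 ?_) ((Real.le_log_iff_exp_le h10).1 h9)
          have : min c 1 / 2 ≤ c := by linarith [min_le_left c 1]
          nlinarith
      · linarith [min_le_left c 1])
    have e : (1 / 2 + T * I + ((ρ : ℂ) + y * I) : ℂ) = 1 / 2 + ρ + y * I + T * I := by ring
    rw [e]
    exact h3
  have hℓL : L / 4 ≤ ℓ := by linarith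
  have hℓ0 : 0 < ℓ := by linarith
  have hκℓ : κ * (L - 15 * m) ≤ κ * (2 * ℓ) := mul_le_mul_of_nonneg_left (by linarith) hκ.le
  have hκℓ2 : κ * (2 * ℓ) ≤ κ * (L + 15 * m) := mul_le_mul_of_nonneg_left hl2 hκ.le
  have hpush := HP ρ hρ hρa ℓ (GG θ N μ T) (ff N Λ T) (by linarith) hud (fun y hy => by
    obtain ⟨u, hu⟩ : ∃ u : ℂ, u = (ρ : ℂ) + y * I := ⟨_, rfl⟩
    have hure : u.re = ρ := by rw [hu]; simp
    have huim : u.im = y := by rw [hu]; simp
    have h3 := hval y hy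
    rw [← hu] at h3 ⊢
    obtain ⟨h4, h5⟩ := hgam u (by rw [hure]; exact hρ.le)
    have hgpos : 0 < ‖gaf N μ (1 / 2 + T * I + u)‖ := lt_of_lt_of_le (by positivity) h4
    have h6 : ‖LL N μ Λ (1 / 2 + T * I + u)‖ * ‖gaf N μ (1 / 2 + T * I + u)‖ = ‖ff N Λ T u‖ := by
      unfold LL ff
      rw [norm_mul, norm_inv, mul_assoc, inv_mul_cancel₀ hgpos.ne', mul_one]
    have h7 : ‖u‖ ^ 2 ≤ 1 / 2 := by
      rw [Complex.sq_norm, Complex.normSq_apply, hure, huim]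
      have h8 := abs_le.1 (hy.trans hh21)
      have h9 : ρ ≤ 1 / 2 := hρa.trans hρ01
      nlinarith
    rw [← h6]
    calc ‖LL N μ Λ (1 / 2 + T * I + u)‖ * ‖gaf N μ (1 / 2 + T * I + u)‖ ≤
          Real.exp (κ1 * L) * (GG θ N μ T * Real.exp (ℓ * u.re + K * (1 + ‖u‖ ^ 2))) :=
          mul_le_mul h3 h5 (norm_nonneg _) (Real.exp_pos _).le
      _ = GG θ N μ T * Real.exp (κ1 * L + (ℓ * u.re + K * (1 + ‖u‖ ^ 2))) := by
          rw [mul_left_comm, ← Real.exp_add]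
      _ ≤ _ := by
          apply mul_le_mul_of_nonneg_left _ hG.le
          apply Real.exp_le_exp.2
          rw [hure]
          have h8 : κ1 * L ≤ κ / 16 * L := mul_le_mul_of_nonneg_right hκ1a hL0'.le
          have h9 : ℓ * ρ ≤ ℓ * (κ / 16) := mul_le_mul_of_nonneg_left hρb hℓ0.le
          have h10 : K * (1 + ‖u‖ ^ 2) ≤ 2 * K := by nlinarith
          nlinarith)
  have hff0 : ff N Λ T 0 = XX N Λ (1 / 2 + T * I) := by unfold ff; rw [add_zero]
  have hg0 := (hgam 0 (by simp)).1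
  simp only [Complex.zero_re, mul_zero, norm_zero, add_zero, zero_sub, ne_eq, OfNat.ofNat_ne_zero,
    not_false_eq_true, zero_pow, mul_one] at hg0
  have hgpos : 0 < ‖gaf N μ (1 / 2 + T * I)‖ := lt_of_lt_of_le (by positivity) hg0
  have hLLn : ‖LL N μ Λ (1 / 2 + T * I)‖ * ‖gaf N μ (1 / 2 + T * I)‖ = ‖ff N Λ T 0‖ := by
    rw [hff0]
    unfold LL
    rw [norm_mul, norm_inv, mul_assoc, inv_mul_cancel₀ hgpos.ne', mul_one]
  have hexp : cq N μ T ^ κ = Real.exp (κ * L) := by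
    rw [Real.rpow_def_of_pos (by linarith), hL, mul_comm]
  rw [hexp] at hbig
  have h11 : GG θ N μ T * Real.exp (κ * L - K) ≤ GG θ N μ T * Real.exp (3 * κ / 8 * ℓ) := by
    refine le_trans ?_ hpush
    rw [← hLLn]
    calc GG θ N μ T * Real.exp (κ * L - K) = Real.exp (κ * L) * (GG θ N μ T * Real.exp (-K)) := by
          rw [sub_eq_add_neg, Real.exp_add]; ring
      _ ≤ _ := mul_le_mul hbig hg0 (by positivity) (norm_nonneg _)
  have h12 := Real.exp_le_exp.1 (le_of_mul_le_mul_left h11 hG)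
  have hmκ : 0 < m * κ := by positivity
  nlinarith

end Pool.Agent.V7H83.CZ
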