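import Pool.Agent.V7H83.CZ.F

/-!
# Geometric means and multipliers
-/

set_option autoImplicit false

open Complex Set MeasureTheory Filter Topology
open scoped ComplexConjugate

namespace Pool.Agent.V7H83.CZ

open Pool.Agent.W169.HF H353.E H353.F Pool.Agent.V7H89.GL H370 H370.Loc Real
open Pool.Agent.V7H52.GM (LM Car)

variable {m : ℕ}

/-- the geometric mean, as the limit of the truncated means -/
noncomputable def GMn (ρ : Measure ℂ) (f : ℂ → ℂ) (t : ℝ) : ℝ :=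
  ⨅ n : ℕ, Real.exp (LM ρ f n t)

lemma GMn_bdd (ρ : Measure ℂ) (f : ℂ → ℂ) (t : ℝ) :
    BddBelow (Set.range fun n : ℕ => Real.exp (LM ρ f n t)) :=
  ⟨0, by rintro _ ⟨n, rfl⟩; exact (Real.exp_pos _).le⟩

/-- from the truncated means to the geometric mean -/
lemma GM_of_LM {ρ : Measure ℂ} [IsProbabilityMeasure ρ] {R : ℝ} (hρ : Car ρ R) {F : ℂ → ℂ} {A B : ℝ}
    (Hd : Pool.Agent.V7H52.GM.Dat F A B) {H x η : ℝ}
    (h : ∀ n : ℕ, ENNReal.ofReal η ≤ volume {t : ℝ | |t| ≤ H ∧ x ≤ LM ρ F n t}) :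
    ENNReal.ofReal η ≤ volume {t : ℝ | |t| ≤ H ∧ Real.exp x ≤ GMn ρ F t} := by
  obtain ⟨E, hE⟩ : ∃ E : ℕ → Set ℝ, E = fun n : ℕ => {t : ℝ | |t| ≤ H ∧ x ≤ LM ρ F (n : ℝ) t} := ⟨_, rfl⟩
  have hcl : ∀ n, IsClosed (E n) := by
    intro n
    have c1 : IsClosed {t : ℝ | |t| ≤ H} := isClosed_le (by fun_prop) continuous_const
    have c2 : IsClosed {t : ℝ | x ≤ LM ρ F n t} :=
      isClosed_le continuous_const (Hd.LM_cont hρ (Nat.cast_nonneg n))
    rw [hE]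
    exact c1.inter c2
  have hanti : Antitone E := by
    intro n k hnk t ht
    rw [hE] at ht ⊢
    refine ⟨ht.1, ht.2.trans ?_⟩
    refine integral_mono (Hd.integrable hρ (Nat.cast_nonneg k) t) (Hd.integrable hρ (Nat.cast_nonneg n) t) ?_
    intro z
    exact Pool.Agent.V7H52.GM.trunc_anti (by exact_mod_cast hnk)
  have hfin : volume (E 0) ≠ ⊤ := by
    have : E 0 ⊆ Metric.closedBall 0 H := by
      intro t ht
      rw [hE] at ht
      rw [Metric.mem_closedBall, Real.dist_eq, sub_zero]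
      exact ht.1
    exact ((measure_mono this).trans_lt (isCompact_closedBall 0 H).measure_lt_top).ne
  have hlim := tendsto_measure_iInter_atTop (μ := volume) (s := E)
    (fun n => (hcl n).measurableSet.nullMeasurableSet) hanti ⟨0, hfin⟩
  have h3 : ENNReal.ofReal η ≤ volume (⋂ n, E n) := by
    refine ge_of_tendsto hlim (Eventually.of_forall fun n => ?_)
    have := h n
    rw [hE]
    exact this
  refine h3.trans (measure_mono ?_)
  intro t ht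
  rw [mem_iInter] at ht
  have h0 := ht 0
  rw [hE] at h0
  refine ⟨h0.1, le_ciInf fun n => Real.exp_le_exp.2 ?_⟩
  have hn := ht n
  rw [hE] at hn
  exact hn.2

/-- multipliers at the height `T` -/
structure MulQ (B σ0 R η Q T : ℝ) (g : ℂ → ℂ) : Prop where
  an : ∀ s : ℂ, 1 / 2 ≤ s.re → AnalyticAt ℂ g s
  up : ∀ s : ℂ, 1 / 2 ≤ s.re → ‖g s‖ ≤ (Q + ‖s - T * I‖) ^ B
  low : ∀ s : ℂ, σ0 ≤ s.re → |s.im - T| ≤ R → Q ^ (-η) ≤ ‖g s‖

lemma MulQ.posLog {B σ0 R η Q T : ℝ} {g : ℂ → ℂ} (h : MulQ B σ0 R η Q T g) (hB : 0 ≤ B) (hQ : 1 ≤ Q) {s : ℂ}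
    (hs : 1 / 2 ≤ s.re) : log⁺ ‖g (s + T * I)‖ ≤ B * Real.log Q + B * Real.log (‖s‖ + 1) := by
  have h1 := h.up (s + T * I) (by simpa using hs)
  rw [add_sub_cancel_right] at h1
  have hn := norm_nonneg s
  have hq : 0 < Q + ‖s‖ := by linarith
  have h2 : ‖g (s + T * I)‖ ≤ Real.exp (B * Real.log (Q + ‖s‖)) := by
    rw [mul_comm B, ← Real.rpow_def_of_pos hq]
    exact h1
  have h3 := pl (norm_nonneg _) h2
  have h4 : Real.log (Q + ‖s‖) ≤ Real.log Q + Real.log (‖s‖ + 1) := by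
    rw [← Real.log_mul (by linarith) (by linarith)]
    apply Real.log_le_log hq
    nlinarith
  have h5 : B * Real.log (Q + ‖s‖) ≤ B * (Real.log Q + Real.log (‖s‖ + 1)) := mul_le_mul_of_nonneg_left h4 hB
  have h6 : 0 ≤ Real.log Q := Real.log_nonneg hQ
  have h7 : 0 ≤ Real.log (‖s‖ + 1) := Real.log_nonneg (by linarith)
  have h8 : 0 ≤ B * (Real.log Q + Real.log (‖s‖ + 1)) := by positivity
  refine h3.trans (max_le ?_ ?_) <;> linarith

/-- **zeros force large geometric means, whatever the multiplier** -/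
theorem multLL (hm : 1 ≤ m) {θ : ℝ} (hθ0 : 0 ≤ θ) (hθ : θ < 1 / 2) {ρ : Measure ℂ} [IsProbabilityMeasure ρ] {R : ℝ}
    (hR : 0 ≤ R) (hρ : Car ρ R) (hδ : ∀ δ : ℝ, 0 < δ → 0 < ρ {z : ℂ | z.re < δ}) {κ B σ0 X : ℝ} (hκ : 0 < κ)
    (hB : 0 ≤ B) (hX : 0 ≤ X) :
    ∃ η H Q0 : ℝ, 0 < η ∧ 0 < H ∧ 1 < Q0 ∧
      ∀ (N : ℝ) (μ : Fin m → ℂ) (α : Fin m → ℕ → ℂ) (ε : ℂ) (Λ : ℂ → ℂ),
      Dat θ N μ α ε Λ → ∀ T : ℝ, Q0 ≤ cq N μ T → ∀ S : Finset ℂ,
      (∀ s ∈ S, 1 / 2 + κ ≤ s.re ∧ ‖s - T * I‖ ≤ X) →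
      κ * Real.log (cq N μ T) ≤ ∑ s ∈ S, (mult (LL N μ Λ) s : ℝ) →
      ∀ g : ℂ → ℂ, MulQ B σ0 R η (cq N μ T) T g →
      ENNReal.ofReal η ≤ volume {t : ℝ | |t - T| ≤ H ∧ cq N μ T ^ η ≤ GMn ρ (fun s => LL N μ Λ s * g s) t} := by
  classical
  have hm' : (1 : ℝ) ≤ m := by exact_mod_cast hm
  obtain ⟨A, hA, HG⟩ := growth hm hθ0 hθ
  obtain ⟨η, H, L0, hη, hH, HZ⟩ := zerosGM hR hρ hδ (a0 := A) (a1 := 1 + B) (b := m + B) (κ := κ) (a := max 2 |σ0|)
    (X := X) (m0 := A) (by linarith) (by linarith) (by positivity) hκ (lt_max_of_lt_left (by norm_num)) hX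
  have ha2 : 2 ≤ max 2 |σ0| := le_max_left _ _
  have haσ : σ0 ≤ max 2 |σ0| := (le_abs_self _).trans (le_max_right _ _)
  refine ⟨η, H, Real.exp (max L0 1), hη, hH, ?_, ?_⟩
  · apply Real.one_lt_exp_iff.2
    linarith [le_max_right L0 1]
  intro N μ α ε Λ D T hQ S hS hSc g hg
  obtain ⟨hdif, hcq1, hgr, hfar⟩ := HG N μ α ε Λ D
  obtain ⟨L, hL⟩ : ∃ L : ℝ, L = Real.log (cq N μ T) := ⟨_, rfl⟩
  have hc1 := hcq1 T
  have hLge : max L0 1 ≤ L := by
    have := Real.log_le_log (Real.exp_pos _) hQ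
    rwa [Real.log_exp, ← hL] at this
  have hLa : L0 ≤ L := (le_max_left _ _).trans hLge
  have hLb : 1 ≤ L := (le_max_right _ _).trans hLge
  obtain ⟨F, hF⟩ : ∃ F : ℂ → ℂ, F = fun s => LL N μ Λ (s + T * I) * g (s + T * I) := ⟨_, rfl⟩
  have hdLL : Differentiable ℂ (fun s => LL N μ Λ (s + T * I)) := hdif.comp (differentiable_id.add_const _)
  have hre : ∀ s : ℂ, (s + T * I).re = s.re := fun s => by simp
  have hgan : ∀ s : ℂ, 1 / 2 ≤ s.re → AnalyticAt ℂ (fun s : ℂ => g (s + T * I)) s := fun s hs => by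
    have h1 := hg.an (s + T * I) (by rw [hre]; exact hs)
    have h2 : AnalyticAt ℂ (fun s : ℂ => s + T * I) s := by fun_prop
    exact AnalyticAt.comp (g := g) (f := fun s : ℂ => s + T * I) h1 h2
  have Hd : Pool.Agent.V7H52.GM.Dat F (A + (1 + B) * L) (m + B) := by
    refine ⟨fun s hs => ?_, by positivity, by positivity, fun s hs => ?_⟩
    · rw [hF]
      exact (hdLL.analyticAt s).mul (hgan s hs)
    · rw [hF]
      show log⁺ ‖LL N μ Λ (s + T * I) * g (s + T * I)‖ ≤ _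
      rw [norm_mul]
      refine posLog_mul.trans ?_
      have h1 := hgr T s hs
      have h2 := hg.posLog hB hc1 hs
      rw [← hL] at h1 h2
      nlinarith
  have hQpos : 0 < cq N μ T := by linarith
  have hpt : ∀ z : ℂ, 0 ≤ z.re → ‖z‖ ≤ R → F (1 / 2 + (max 2 |σ0| : ℝ) + z) ≠ 0 ∧
      -(η * L + A) ≤ Real.log ‖F (1 / 2 + (max 2 |σ0| : ℝ) + z)‖ := by
    intro z hz hzR
    obtain ⟨s, hs⟩ : ∃ s : ℂ, s = 1 / 2 + (max 2 |σ0| : ℝ) + z + T * I := ⟨_, rfl⟩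
    have hsre : s.re = 1 / 2 + max 2 |σ0| + z.re := by rw [hs]; simp
    have hsim : s.im = z.im + T := by rw [hs]; simp
    obtain ⟨h1, h2⟩ := hfar s (by linarith)
    have h3 := hg.low s (by linarith) (by
      rw [hsim, add_sub_cancel_right]
      exact (Complex.abs_im_le_norm z).trans hzR)
    have h4 : 0 < cq N μ T ^ (-η) := Real.rpow_pos_of_pos hQpos _
    have h5 : 0 < ‖g s‖ := h4.trans_le h3
    have h6 := Real.log_le_log h4 h3
    rw [Real.log_rpow hQpos, ← hL] at h6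
    rw [hF]
    show LL N μ Λ (1 / 2 + (max 2 |σ0| : ℝ) + z + T * I) * g (1 / 2 + (max 2 |σ0| : ℝ) + z + T * I) ≠ 0 ∧
      -(η * L + A) ≤ Real.log ‖LL N μ Λ (1 / 2 + (max 2 |σ0| : ℝ) + z + T * I) *
        g (1 / 2 + (max 2 |σ0| : ℝ) + z + T * I)‖
    rw [← hs]
    refine ⟨mul_ne_zero h1 (norm_pos_iff.1 h5), ?_⟩
    rw [norm_mul, Real.log_mul (norm_ne_zero_iff.2 h1) h5.ne']
    linarith
  have hmul : ∀ s : ℂ, 1 / 2 + κ ≤ s.re → mult (LL N μ Λ) s ≤ mult F (s - T * I) := by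
    intro s hs
    have hsre : (s - T * I).re = s.re := by simp
    have hconv : IsPreconnected {s : ℂ | 1 / 2 ≤ s.re} := (convex_halfSpace_re_ge (1 / 2)).isPreconnected
    have hfin := H370.Loc.order_ne_top (f := F) (K := {s : ℂ | 1 / 2 ≤ s.re}) hconv
      (fun z hz => Hd.an z hz) (c := 1 / 2 + (max 2 |σ0| : ℝ) + 0) (z := s - T * I) (by
        show 1 / 2 ≤ (1 / 2 + ((max 2 |σ0| : ℝ) : ℂ) + 0).re
        simp only [add_zero, Complex.add_re, Complex.ofReal_re]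
        norm_num) (hpt 0 (by simp) (by simpa using hR)).1 (by
        show 1 / 2 ≤ (s - T * I).re
        linarith)
    have h1 : mult (fun s => LL N μ Λ (T * I + s)) (s - T * I) = mult (LL N μ Λ) s := by
      have := ord_shift (LL N μ Λ) (T * I) (s - T * I)
      rw [add_sub_cancel] at this
      exact this
    have e1 : (fun s => LL N μ Λ (T * I + s)) = fun s => LL N μ Λ (s + T * I) := by
      funext z
      rw [add_comm]
    rw [e1] at h1
    rw [← h1]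
    unfold mult analyticOrderNatAt
    apply ENat.toNat_le_toNat _ hfin
    have h2 : F = (fun s => LL N μ Λ (s + T * I)) * (fun s => g (s + T * I)) := by rw [hF]; rfl
    rw [h2, analyticOrderAt_mul (hdLL.analyticAt _) (hgan _ (by linarith))]
    exact le_self_add
  have hZ := HZ L F hLa Hd hpt (S.image fun s => s - T * I) (by
    intro w hw
    obtain ⟨s, hs, rfl⟩ := Finset.mem_image.1 hw
    obtain ⟨h1, h2⟩ := hS s hs
    refine ⟨?_, h2⟩
    have : (s - T * I).re = s.re := by simp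
    linarith) (by
    rw [Finset.sum_image (fun u _ v _ huv => sub_left_injective huv), hL]
    refine hSc.trans (Finset.sum_le_sum fun s hs => ?_)
    exact_mod_cast hmul s (hS s hs).1)
  have hGM := GM_of_LM hρ Hd (H := H) (x := η * L) (η := η) (fun n => hZ n (Nat.cast_nonneg n))
  have hsh := measure_preimage_add_right (volume : Measure ℝ) T
    {t : ℝ | |t - T| ≤ H ∧ cq N μ T ^ η ≤ GMn ρ (fun s => LL N μ Λ s * g s) t}
  rw [← hsh]
  refine hGM.trans (measure_mono ?_)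
  rintro t ⟨h1, h2⟩
  show |t + T - T| ≤ H ∧ cq N μ T ^ η ≤ GMn ρ (fun s => LL N μ Λ s * g s) (t + T)
  refine ⟨by rwa [add_sub_cancel_right], ?_⟩
  rw [Real.rpow_def_of_pos hQpos, ← hL, mul_comm]
  refine h2.trans_eq ?_
  unfold GMn LM
  congr 1
  funext n
  congr 1
  apply integral_congr_ae
  refine Eventually.of_forall fun z => ?_
  simp only [hF]
  have e : (1 / 2 + ((t + T : ℝ) : ℂ) * I + z) = 1 / 2 + (t : ℂ) * I + z + T * I := by push_cast; ring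
  rw [e]

/-- **a large value forces large geometric means, whatever the multiplier** -/
theorem lawLL (hm : 1 ≤ m) {θ : ℝ} (hθ0 : 0 ≤ θ) (hθ : θ < 1 / 2) {ρ : Measure ℂ} [IsProbabilityMeasure ρ] {R : ℝ}
    (hR : 0 ≤ R) (hρ : Car ρ R) (hδ : ∀ δ : ℝ, 0 < δ → 0 < ρ {z : ℂ | z.re < δ}) {κ B σ0 : ℝ} (hκ : 0 < κ)
    (hB : 0 ≤ B) :
    ∃ η H Q0 : ℝ, 0 < η ∧ 0 < H ∧ 1 < Q0 ∧
      ∀ (N : ℝ) (μ : Fin m → ℂ) (α : Fin m → ℕ → ℂ) (ε : ℂ) (Λ : ℂ → ℂ),
      Dat θ N μ α ε Λ → ∀ T : ℝ, Q0 ≤ cq N μ T → cq N μ T ^ κ ≤ ‖LL N μ Λ (1 / 2 + T * I)‖ →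
      ∀ g : ℂ → ℂ, MulQ B σ0 R η (cq N μ T) T g →
      ENNReal.ofReal η ≤ volume {t : ℝ | |t - T| ≤ H ∧ cq N μ T ^ η ≤ GMn ρ (fun s => LL N μ Λ s * g s) t} := by
  obtain ⟨c, Q1, hc, hQ1, HZ⟩ := zerosLL hm hθ0 hθ hκ one_pos
  obtain ⟨η, H, Q2, hη, hH, hQ2, HM⟩ := multLL hm hθ0 hθ hR hρ hδ (κ := c) (B := B) (σ0 := σ0) (X := 3) hc hB
    (by norm_num)
  obtain ⟨A, hA, HG⟩ := growth hm hθ0 hθ
  refine ⟨η, H, max Q1 Q2, hη, hH, lt_max_of_lt_left hQ1, ?_⟩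
  intro N μ α ε Λ D T hQ hbig g hg
  obtain ⟨S, hS, hSc⟩ := HZ N μ α ε Λ D T ((le_max_left _ _).trans hQ) hbig
  obtain ⟨-, -, -, hfar⟩ := HG N μ α ε Λ D
  refine HM N μ α ε Λ D T ((le_max_right _ _).trans hQ) S (fun s hs => ?_) hSc g hg
  obtain ⟨h1, h2, h3⟩ := hS s hs
  refine ⟨h2, ?_⟩
  have h4 : s.re < 2 := by
    by_contra h
    push Not at h
    exact (hfar s h).1 h1
  have h5 := Complex.norm_le_abs_re_add_abs_im (s - T * I)
  have e1 : (s - T * I).re = s.re := by simp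
  have e2 : (s - T * I).im = s.im - T := by simp
  rw [e1, e2, abs_of_nonneg (by linarith)] at h5
  linarith

end Pool.Agent.V7H83.CZ
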